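import Pool.Agent.Helper80.NHM.Base
import Pool.Agent.Helper533.Deny.Final
import Pool.Agent.Helper795.LusinN
open MeasureTheory Filter Topology Set Metric
open scoped ENNReal NNReal RealInnerProductSpace

namespace Pool.Agent.Helper80.NHM

open Pool.Agent.Helper533

variable {n : ℕ}

theorem vol_ball10460 (y : Sp n) {r : ℝ} (hr : 0 < r) :
    (volume : Measure (Sp n)).real (ball y r) =
      r ^ n * (volume : Measure (Sp n)).real (ball (0 : Sp n) 1) := by
  unfold Measure.real
  rw [Measure.addHaar_ball_of_pos _ _ hr, ENNReal.toReal_mul,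
    ENNReal.toReal_ofReal (by positivity)]
  simp

/-- iteration of the De Giorgi lemma `DG1` at the centre of a ball -/
theorem dg1_center (hn : 2 ≤ n) {α β Cd θ Cs lam Cp : ℝ} (hα : 0 < α) (hαβ : α ≤ β)
    (hadm : Polar.Adm (n : ℝ) (volume : Measure (Sp n)) Cd θ Cs lam Cp) :
    ∃ γ : ℝ, 0 < γ ∧ ∀ A : Sp n → Sp n → Sp n, AOp n α β A →
    ∀ (j : ℕ) (y : Sp n) (r : ℝ), 0 < r → ∀ (s : Sp n → ℝ) (S : Sp n → Sp n),
    Polar.Sup A (n : ℝ) volume (ball y r) s S → ContinuousOn s (ball y r) →
    (∀ z ∈ ball y r, 0 ≤ s z) → ∀ k : ℝ, 0 < k →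
    volume.real {z | z ∈ ball y r ∧ s z < k} ≤ γ * ((1 / 2 : ℝ) ^ (n * j)) * volume.real (ball y r) →
    (1 - (1 / 2 : ℝ) ^ j) * k ≤ s y := by
  have hp : (1:ℝ) < (n:ℝ) := by exact_mod_cast (by omega : 1 < n)
  obtain ⟨γ0, hγ0, hDG⟩ := Polar.DG1 (n := n) (p := (n:ℝ)) (α := α) (β := β) (Cd := Cd) (θ := θ)
    (Cs := Cs) (lam := lam) (Cp := Cp) hp hα (lt_of_lt_of_le hα hαβ)
  refine ⟨γ0, hγ0, ?_⟩
  intro A hA j
  induction j with
  | zero =>
    intro y r hr s S _ _ h0 k _ _
    have := h0 y (mem_ball_self hr)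
    simpa using this
  | succ j ih =>
    intro y r hr s S hS hc h0 k hk hvol
    have hvr : 0 ≤ (volume : Measure (Sp n)).real (ball y r) := measureReal_nonneg
    have h1 : volume.real {z | z ∈ ball y r ∧ s z < k} ≤ γ0 * volume.real (ball y r) := by
      refine hvol.trans ?_
      have h2 : (1 / 2 : ℝ) ^ (n * (j + 1)) ≤ 1 := pow_le_one₀ (by norm_num) (by norm_num)
      apply mul_le_mul_of_nonneg_right _ hvr
      calc γ0 * (1 / 2 : ℝ) ^ (n * (j + 1)) ≤ γ0 * 1 := by gcongr
        _ = γ0 := mul_one _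
    have hae := hDG volume A hA.op hadm (ball y r) isOpen_ball s S hS
      (Filter.Eventually.of_forall h0) y r hr subset_rfl k hk h1
    have hsub : ball y (r / 2) ⊆ ball y r := ball_subset_ball (by linarith)
    have hall : ∀ z ∈ ball y (r / 2), k / 2 ≤ s z := by
      intro z hz
      by_contra hcon
      rw [not_le] at hcon
      have hopen : IsOpen (ball y (r / 2) ∩ s ⁻¹' Iio (k / 2)) :=
        (hc.mono hsub).isOpen_inter_preimage isOpen_ball isOpen_Iio
      have hpos := hopen.measure_pos (volume : Measure (Sp n)) ⟨z, hz, hcon⟩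
      have hzero : (volume : Measure (Sp n)) (ball y (r / 2) ∩ s ⁻¹' Iio (k / 2)) = 0 := by
        rw [measure_eq_zero_iff_ae_notMem]
        filter_upwards [hae] with w hw
        rintro ⟨hw1, hw2⟩
        exact absurd (hw hw1) (not_le.mpr hw2)
      rw [hzero] at hpos
      exact lt_irrefl _ hpos
    have hS' : Polar.Sup A (n : ℝ) volume (ball y (r / 2)) (fun x => s x - k / 2) S :=
      (hS.sub_const hp (k / 2)).mono_set hp isOpen_ball hsub
    have key := ih y (r / 2) (by positivity) (fun x => s x - k / 2) S hS'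
      ((hc.mono hsub).sub continuousOn_const) (fun z hz => by have := hall z hz; linarith)
      (k / 2) (by positivity) ?_
    · have e1 : (1 / 2 : ℝ) ^ (j + 1) = (1 / 2 : ℝ) ^ j * (1 / 2) := pow_succ _ _
      rw [e1]
      linarith
    · have h3 : (volume : Measure (Sp n)).real {z | z ∈ ball y (r / 2) ∧ s z - k / 2 < k / 2} ≤
          volume.real {z | z ∈ ball y r ∧ s z < k} := by
        apply measureReal_mono
        · intro z hz
          exact ⟨hsub hz.1, by have := hz.2; linarith⟩
        · exact ((measure_mono (fun z hz => hz.1)).trans_lt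
            (measure_ball_lt_top (x := y) (r := r))).ne
      refine h3.trans (hvol.trans (le_of_eq ?_))
      rw [vol_ball10460 y hr, vol_ball10460 y (by positivity : 0 < r / 2)]
      have e2 : (1 / 2 : ℝ) ^ (n * (j + 1)) = (1 / 2 : ℝ) ^ (n * j) * (1 / 2) ^ n := by
        rw [mul_add, mul_one, pow_add]
      have e3 : (r / 2) ^ n = r ^ n * (1 / 2 : ℝ) ^ n := by
        rw [← mul_pow]
        congr 1
        ring
      rw [e2, e3]
      ring

end Pool.Agent.Helper80.NHM
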