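import Pool.Agent.Helper80.NHM.Base
import Pool.Agent.Helper533.NHM.PotC
import Pool.Agent.Helper533.NHM.Paste
import Pool.Agent.Helper533.NHM.AdmVol
open MeasureTheory Filter Topology Set Metric
open scoped ENNReal NNReal RealInnerProductSpace

namespace Pool.Agent.Helper80.NHM

open Pool.Agent.Helper533

variable {n : ℕ}

/-- Lebesgue measure is `n`-admissible -/
theorem adm_volume (hn : 2 ≤ n) : ∃ Cd θ Cs lam Cp : ℝ,
    Polar.Adm (n : ℝ) (volume : Measure (Sp n)) Cd θ Cs lam Cp :=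
  Polar.adm_volume (by omega) (by exact_mod_cast (by omega : 1 < n))

/-- pasting: a continuous function `v ≤ M` which is harmonic where
`v < M` is a weak supersolution -/
theorem paste_sup (hn : 2 ≤ n) {α β : ℝ} {A : Sp n → Sp n → Sp n} (hA : AOp n α β A)
    {Ω : Set (Sp n)} (hΩ : IsOpen Ω) {v : Sp n → ℝ} (hv : ContinuousOn v Ω) {M : ℝ}
    (hM : ∀ x ∈ Ω, v x ≤ M) (hh : Harm A {x | x ∈ Ω ∧ v x < M} v) :
    ∃ V : Sp n → Sp n, Polar.Sup A (n : ℝ) volume Ω v V := by
  obtain ⟨_, H, hH, he⟩ := hh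
  exact ⟨_, Polar.paste_sup hn hA.pos (hA.pos.trans_le hA.le) hA.op hΩ hv hM hH he⟩

/-- obstacle solution in a ball, continuous up to the boundary -/
theorem exists_obs_ball (hn : 2 ≤ n) {α β : ℝ} {A : Sp n → Sp n → Sp n} (hA : AOp n α β A)
    (y : Sp n) {R : ℝ} (hR : 0 < R) {ρ : Sp n → ℝ} (hρ : Polar.Cc (ball y R) ρ)
    (hρ01 : ∀ x, 0 ≤ ρ x ∧ ρ x ≤ 1) :
    ∃ (ω : Sp n → ℝ) (W : Sp n → Sp n), Continuous ω ∧ (∀ z, 0 ≤ ω z ∧ ω z ≤ 1) ∧
      (∀ z, z ∉ ball y R → ω z = 0) ∧ (∀ z, ρ z ≤ ω z) ∧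
      Polar.Sup A (n : ℝ) volume (ball y R) ω W ∧ Harm A (ball y R \ tsupport ρ) ω := by
  have hp : (1 : ℝ) < n := by exact_mod_cast (by omega : 1 < n)
  obtain ⟨Cd, θ, Cs, lam, Cp, hadm⟩ := adm_volume hn
  obtain ⟨ω, W, hC, hc, h01, hge, h0⟩ := Polar.exists_raw (by omega) hp hA.pos
    (hA.pos.trans_le hA.le) hA.op hadm hR hρ hρ01
  have hsub : ball y R \ tsupport ρ ⊆ ball y R := sdiff_subset
  have ho : IsOpen (ball y R \ tsupport ρ) := isOpen_ball.sdiff (isClosed_tsupport _)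
  refine ⟨ω, W, hc, h01, h0, hge, hC.obs.sup hp, hc.continuousOn, W,
    (Polar.H0.toLH hp hC.obs.h0).mono hsub hp ho, fun φ hφ => ?_⟩
  refine Polar.CObs.harm_off hp hA.pos (hA.pos.trans_le hA.le) hA.op isOpen_ball hρ
    (fun x => (hρ01 x).1) hC (B := (tsupport φ)ᶜ) (isClosed_tsupport _).isOpen_compl ?_
    (Polar.H0.of_Cc (hφ.mono hsub)) (Eventually.of_forall fun x hx => ?_)
  · intro x hx hx'
    exact (hφ.supp hx').2 hx
  · exact image_eq_zero_of_notMem_tsupport hx


/-- potentials. `k d → ∞` as `d → 0` is a lower bound at distance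
`≤ d` from the pole, `Φ d` an upper bound at distance `≥ d`; both are independent of the radius `t`
of the core. -/
theorem potentials (hn : 2 ≤ n) {α β : ℝ} {A : Sp n → Sp n → Sp n} (hA : AOp n α β A)
    (y₀ : Sp n) {S : ℝ} (hS : 0 < S) :
    ∃ (k Φ : ℝ → ℝ) (t₀ : ℝ), 0 < t₀ ∧ Tendsto k (𝓝[>] 0) atTop ∧
      ∀ a ∈ closedBall y₀ (S / 8), ∀ t : ℝ, 0 < t → t < t₀ →
        ∃ (ω : Sp n → ℝ) (M : ℝ), Continuous ω ∧ 0 < M ∧ (∀ z, 0 ≤ ω z ∧ ω z ≤ M) ∧
          (∀ z ∈ closedBall a t, ω z = M) ∧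
          Harm A (ball y₀ S ∩ {z | ω z < M}) ω ∧
          (∀ d : ℝ, t ≤ d → d ≤ S → ∀ z, dist z a ≤ d → k d ≤ ω z) ∧
          (∀ d : ℝ, t ≤ d → d ≤ S → ∀ z, d ≤ dist z a → ω z ≤ Φ d) := by
  obtain ⟨L, C, hL4, hC, hpot⟩ := Polar.target_potential hn hA.pos (hA.pos.trans_le hA.le)
  have hL0 : 0 < L := by linarith
  have hL1 : 1 < L := by linarith
  have hN : ∀ d : ℝ, ∃ N : ℕ, 0 < d → S / 8 ≤ 2 ^ N * d := by
    intro d
    by_cases hd : 0 < d
    · obtain ⟨N, hN⟩ := pow_unbounded_of_one_lt (S / 8 / d) (by norm_num : (1 : ℝ) < 2)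
      refine ⟨N, fun _ => ?_⟩
      rw [div_lt_iff₀ hd] at hN
      exact hN.le
    · exact ⟨0, fun h => absurd h hd⟩
  choose N hN using hN
  obtain ⟨e, he⟩ : ∃ e : Sp n, ‖e‖ = 1 :=
    ⟨EuclideanSpace.single ⟨0, by omega⟩ (1 : ℝ), by simp⟩
  have hpt : ∀ (a : Sp n) (r : ℝ), 0 ≤ r → ∃ z : Sp n, dist z a = r := by
    intro a r hr
    refine ⟨a + r • e, ?_⟩
    rw [dist_eq_norm, add_sub_cancel_left, norm_smul, he, mul_one, Real.norm_eq_abs,
      abs_of_nonneg hr]
  refine ⟨fun d => Real.logb L (S / d) + -1, fun d => C * (N d + 1), S / L, by positivity, ?_, ?_⟩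
  · refine tendsto_atTop_add_const_right _ _ ?_
    refine (Real.tendsto_logb_atTop hL1).comp ?_
    exact tendsto_inv_nhdsGT_zero.const_mul_atTop hS
  · intro a ha t ht htS
    rw [mem_closedBall] at ha
    have hLt : L * t ≤ S := by
      rw [lt_div_iff₀ hL0] at htS
      linarith
    obtain ⟨ω, W, M, hM, hc, hb, -, hcore, -, hLH, heq, hup, hstep, hstep2⟩ :=
      hpot A hA.op hA.smono y₀ a S t ht (by linarith) hLt
    have hlow : ∀ m : ℕ, ∀ d, t ≤ d → L ^ m * d ≤ S → ∀ z, dist z a ≤ d → (m : ℝ) ≤ ω z := by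
      intro m
      induction m with
      | zero =>
        intro d _ _ z _
        rw [Nat.cast_zero]
        exact (hb z).1
      | succ m ih =>
        intro d hd1 hd2 z hz
        have hd0 : 0 < d := lt_of_lt_of_le ht hd1
        have hLd : d ≤ L * d := by nlinarith
        have hpow : L * d ≤ L ^ (m + 1) * d := by
          refine mul_le_mul_of_nonneg_right ?_ hd0.le
          have h1 : (1 : ℝ) ≤ L ^ m := one_le_pow₀ hL1.le
          rw [pow_succ]
          nlinarith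
        obtain ⟨z', hz'⟩ := hpt a (L * d) (by positivity)
        have h1 := hstep d hd1 (hpow.trans hd2) z z' hz hz'.ge
        have h2 := ih (L * d) (hd1.trans hLd) (by
          rw [← mul_assoc, ← pow_succ]
          exact hd2) z' hz'.le
        push_cast
        linarith
    have hupp : ∀ m : ℕ, ∀ d, t ≤ d → S / 8 ≤ 2 ^ m * d → ∀ z, d ≤ dist z a →
        ω z ≤ C * (m + 1) := by
      intro m
      induction m with
      | zero =>
        intro d _ hd2 z hz
        have := hup z (by linarith)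
        push_cast
        linarith
      | succ m ih =>
        intro d hd1 hd2 z hz
        have hd0 : 0 < d := lt_of_lt_of_le ht hd1
        have hm0 : (0 : ℝ) ≤ m := Nat.cast_nonneg m
        push_cast
        rcases le_total (S / 8) d with h | h
        · have := hup z (by linarith)
          nlinarith
        · obtain ⟨z', hz'⟩ := hpt a (2 * d) (by positivity)
          have h1 := hstep2 d hd1 h z z' hz hz'.le
          have h2 := ih (2 * d) (by linarith) (by
            rw [← mul_assoc, ← pow_succ]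
            exact hd2) z' hz'.ge
          linarith
    refine ⟨ω, M, hc, hM, hb, fun z hz => hcore z (mem_closedBall.mp hz),
      ⟨hc.continuousOn, W, hLH, heq⟩, ?_, ?_⟩
    · intro d hd1 hd2 z hz
      have hd0 : 0 < d := lt_of_lt_of_le ht hd1
      have hSd : 1 ≤ S / d := by
        rw [le_div_iff₀ hd0]
        linarith
      have hlog : 0 ≤ Real.logb L (S / d) := Real.logb_nonneg hL1 hSd
      have h1 : L ^ ⌊Real.logb L (S / d)⌋₊ * d ≤ S := by
        rw [← le_div_iff₀ hd0, ← Real.rpow_natCast]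
        calc L ^ ((⌊Real.logb L (S / d)⌋₊ : ℕ) : ℝ) ≤ L ^ (Real.logb L (S / d)) :=
              Real.rpow_le_rpow_of_exponent_le hL1.le (Nat.floor_le hlog)
          _ = S / d := Real.rpow_logb hL0 hL1.ne' (by positivity)
      have h2 := hlow _ d hd1 h1 z hz
      have h3 := Nat.lt_floor_add_one (Real.logb L (S / d))
      show Real.logb L (S / d) + -1 ≤ ω z
      linarith
    · intro d hd1 hd2 z hz
      exact hupp (N d) d hd1 (hN d (lt_of_lt_of_le ht hd1)) z hz

end Pool.Agent.Helper80.NHM
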