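import Pool.Agent.Helper80.NHM.B.MinP
open MeasureTheory Filter Topology Set Metric
open scoped ENNReal NNReal RealInnerProductSpace

namespace Pool.Agent.Helper80.NHM

open Pool.Agent.Helper533

variable {n : ℕ}

/-- auxiliary -/
theorem hp_aux (hn : 2 ≤ n) : (1 : ℝ) < (n : ℝ) := by
  have : (2 : ℝ) ≤ n := by exact_mod_cast hn
  linarith

theorem Harm.const_mul (hn : 2 ≤ n) {α β : ℝ} {A : Sp n → Sp n → Sp n} (hA : AOp n α β A)
    {G : Set (Sp n)} {u : Sp n → ℝ} (hu : Harm A G u) (c : ℝ) : Harm A G (fun x => c * u x) := by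
  obtain ⟨hc, H, hH, heq⟩ := hu
  refine ⟨continuousOn_const.mul hc, fun x => c • H x, hH.const_mul c, fun φ hφ => ?_⟩
  by_cases hc0 : c = 0
  · have h1 : ∀ᵐ x ∂(volume : Measure (Sp n)), ⟪A x (c • H x), gradient φ x⟫ = (0 : ℝ) := by
      filter_upwards [hA.op.bdd] with x hx
      have h2 := hx 0
      rw [norm_zero, Real.zero_rpow (by linarith [hp_aux hn]), mul_zero] at h2
      have h3 : A x 0 = 0 := norm_le_zero_iff.1 h2
      rw [hc0, zero_smul, h3, inner_zero_left]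
    rw [integral_congr_ae h1, integral_zero]
  · have h1 : ∀ᵐ x ∂(volume : Measure (Sp n)), ⟪A x (c • H x), gradient φ x⟫ =
        (c * |c| ^ ((n : ℝ) - 2)) * ⟪A x (H x), gradient φ x⟫ := by
      filter_upwards [hA.op.hom] with x hx
      rw [hx c (H x) hc0, real_inner_smul_left]
    rw [integral_congr_ae h1, integral_const_mul, heq φ hφ, mul_zero]

/-- operations on harmonic functions -/
theorem Harm.neg (hn : 2 ≤ n) {α β : ℝ} {A : Sp n → Sp n → Sp n} (hA : AOp n α β A)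
    {G : Set (Sp n)} {u : Sp n → ℝ} (hu : Harm A G u) : Harm A G (fun x => - u x) := by
  have := Harm.const_mul hn hA hu (-1)
  simpa using this

theorem Harm.add_const (hn : 2 ≤ n) {α β : ℝ} {A : Sp n → Sp n → Sp n} (hA : AOp n α β A)
    {G : Set (Sp n)} {u : Sp n → ℝ} (hu : Harm A G u) (c : ℝ) : Harm A G (fun x => u x + c) := by
  obtain ⟨hc, H, hH, heq⟩ := hu
  refine ⟨hc.add continuousOn_const, H, ?_, heq⟩
  have := Polar.LH.add (hp_aux hn) hH (Polar.LH.const c)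
  simpa using this

theorem Harm.mono (hn : 2 ≤ n) {A : Sp n → Sp n → Sp n}
    {G G' : Set (Sp n)} {u : Sp n → ℝ} (hu : Harm A G u) (hG' : IsOpen G') (h : G' ⊆ G) :
    Harm A G' u := by
  obtain ⟨hc, H, hH, heq⟩ := hu
  exact ⟨hc.mono h, H, hH.mono h (hp_aux hn) hG', fun φ hφ => heq φ (hφ.mono h)⟩

theorem Harm.congr (hn : 2 ≤ n) {A : Sp n → Sp n → Sp n}
    {G : Set (Sp n)} {u v : Sp n → ℝ} (hu : Harm A G u) (hG : IsOpen G) (h : ∀ x ∈ G, u x = v x) :
    Harm A G v := by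
  obtain ⟨hc, H, hH, heq⟩ := hu
  exact ⟨hc.congr fun x hx => (h x hx).symm, H,
    hH.congr (Filter.Eventually.of_forall h) (Filter.Eventually.of_forall fun _ _ => rfl), heq⟩

/-- a harmonic function is a weak supersolution -/
theorem Harm.sup (hn : 2 ≤ n) {α β : ℝ} {A : Sp n → Sp n → Sp n} (hA : AOp n α β A)
    {G : Set (Sp n)} {u : Sp n → ℝ} (hu : Harm A G u) :
    ∃ U : Sp n → Sp n, Polar.Sup A (n : ℝ) volume G u U := by
  obtain ⟨hc, H, hH, heq⟩ := hu
  exact ⟨H, hH, fun φ hφ _ => (heq φ hφ).ge⟩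

/-- maximum principle for harmonic functions -/
theorem Harm.maxP (hn : 2 ≤ n) {α β Cd θ Cs lam Cp : ℝ} {A : Sp n → Sp n → Sp n}
    (hA : AOp n α β A)
    (hadm : Polar.Adm (n : ℝ) (volume : Measure (Sp n)) Cd θ Cs lam Cp) {G : Set (Sp n)}
    (hG : IsOpen G) {u : Sp n → ℝ} (hu : Harm A G u)
    {W : Set (Sp n)} (hW : IsOpen W) (hWc : IsCompact (closure W))
    (hWG : closure W ⊆ G) {m : ℝ} (hm : ∀ a ∈ frontier W, u a ≤ m) :
    ∀ w ∈ W, u w ≤ m := by
  have hneg := Harm.neg hn hA hu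
  obtain ⟨S, hS⟩ := Harm.sup hn hA hneg
  intro w hw
  have := minP hn hA hadm hG hS hneg.1 hW hWc hWG (m := -m)
    (fun a ha => neg_le_neg (hm a ha)) w hw
  exact neg_le_neg_iff.1 this

end Pool.Agent.Helper80.NHM
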