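import Pool.Agent.Helper80.NHM.Base
import Pool.Agent.Helper533.Deny.Final
import Pool.Agent.Helper795.LusinN
open MeasureTheory Filter Topology Set Metric
open scoped ENNReal NNReal RealInnerProductSpace

namespace Pool.Agent.Helper80.NHM

open Pool.Agent.Helper533

variable {n : ℕ}

/-- logarithmic estimate for continuous positive weak supersolutions on concentric balls -/
theorem log_ball (hn : 2 ≤ n) {α β : ℝ} (hα : 0 < α) (hαβ : α ≤ β) : ∃ C : ℝ, 0 ≤ C ∧
    ∀ A : Sp n → Sp n → Sp n, AOp n α β A → ∀ (G : Set (Sp n)), IsOpen G →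
    ∀ (s : Sp n → ℝ) (S : Sp n → Sp n), Polar.Sup A (n : ℝ) volume G s S → ContinuousOn s G →
    ∀ e : ℝ, 0 < e → (∀ x ∈ G, e ≤ s x) →
    Polar.LH (n : ℝ) volume G (fun x => Real.log (s x)) (fun x => (s x)⁻¹ • S x) ∧
    ∀ (x₀ : Sp n) (r R : ℝ), 0 < r → r < R → closedBall x₀ R ⊆ G →
      IntegrableOn (fun y => ‖(s y)⁻¹ • S y‖ ^ n) (closedBall x₀ r) ∧
      ∫ y in closedBall x₀ r, ‖(s y)⁻¹ • S y‖ ^ n ≤ C * (R / (R - r)) ^ n := by
  have hp : (1 : ℝ) < (n : ℝ) := by
    have : (2 : ℝ) ≤ n := by exact_mod_cast hn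
    linarith
  have hβ : 0 < β := lt_of_lt_of_le hα hαβ
  obtain ⟨CL, hCL, hlog⟩ := Polar.log_estimate (n := n) hp hα hβ n le_rfl
  obtain ⟨C0, hC0, hcut⟩ := Polar.exists_ball_cutoff n
  refine ⟨CL * (C0 ^ n * volume.real (ball (0 : Sp n) 1)), by positivity, ?_⟩
  intro A hA G hG s S hs hsc e he hse
  have hse' : ∀ᵐ x ∂(volume : Measure (Sp n)), x ∈ G → e ≤ s x := Eventually.of_forall hse
  refine ⟨?_, ?_⟩
  · have h1 := Polar.LH.chain_on hp hG hs.1 (a := e) (d := e / 2) (C := 2 / e) (half_pos he) hse'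
      (b := fun τ => Real.log τ) (by
        refine ContDiffOn.log contDiffOn_id ?_
        intro τ hτ
        have h2 : e - e / 2 < τ := hτ
        have : 0 < τ := by linarith
        exact this.ne') (by
        intro τ hτ
        have h2 : e - e / 2 < τ := hτ
        have h3 : 0 < τ := by linarith
        rw [Real.deriv_log, abs_of_pos (inv_pos.2 h3), inv_eq_one_div,
          div_le_div_iff₀ h3 he]
        linarith)
    simpa only [Real.deriv_log] using h1
  · intro x₀ r R hr hrR hball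
    obtain ⟨η, hη, hη01, hη1, hηg⟩ := hcut x₀ r R hr hrR
    have hηG : Polar.Cc G η := hη.mono (ball_subset_closedBall.trans hball)
    obtain ⟨hLint, hLle⟩ := hlog volume A hA.op G hG s S hs e he hse' η hηG hη01
    have hRr : 0 < R - r := by linarith
    have hR : 0 < R := hr.trans hrR
    have hgi : ∫ y, ‖gradient η y‖ ^ (n : ℝ) ≤
        (C0 / (R - r)) ^ (n : ℝ) * volume.real (ball x₀ R) :=
      Polar.dg2_grad_int hp (by positivity) measure_ball_lt_top hη hηg
    have hvol : volume.real (ball x₀ R) = R ^ n * volume.real (ball (0 : Sp n) 1) := by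
      have h5 := Measure.addHaar_ball_of_pos (volume : Measure (Sp n)) x₀ hR
      rw [finrank_euclideanSpace_fin] at h5
      unfold Measure.real
      rw [h5, ENNReal.toReal_mul, ENNReal.toReal_ofReal (by positivity)]
    have hcongr : ∀ y ∈ closedBall x₀ r,
        ‖(s y)⁻¹ • S y‖ ^ (n : ℝ) * η y ^ n = ‖(s y)⁻¹ • S y‖ ^ n := by
      intro y hy
      rw [hη1 y hy, one_pow, mul_one, Real.rpow_natCast]
    refine ⟨(hLint.integrableOn (s := closedBall x₀ r)).congr_fun hcongr
      isClosed_closedBall.measurableSet, ?_⟩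
    calc ∫ y in closedBall x₀ r, ‖(s y)⁻¹ • S y‖ ^ n
        = ∫ y in closedBall x₀ r, ‖(s y)⁻¹ • S y‖ ^ (n : ℝ) * η y ^ n :=
          (setIntegral_congr_fun isClosed_closedBall.measurableSet hcongr).symm
      _ ≤ ∫ y, ‖(s y)⁻¹ • S y‖ ^ (n : ℝ) * η y ^ n := by
          refine setIntegral_le_integral hLint (Eventually.of_forall fun y => ?_)
          have := (hη01 y).1
          show 0 ≤ ‖(s y)⁻¹ • S y‖ ^ (n : ℝ) * η y ^ n
          positivity
      _ ≤ CL * ∫ y, ‖gradient η y‖ ^ (n : ℝ) := hLle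
      _ ≤ CL * ((C0 / (R - r)) ^ (n : ℝ) * volume.real (ball x₀ R)) :=
          mul_le_mul_of_nonneg_left hgi hCL
      _ = CL * (C0 ^ n * volume.real (ball (0 : Sp n) 1)) * (R / (R - r)) ^ n := by
          rw [hvol, Real.rpow_natCast, div_pow, div_pow]
          ring

end Pool.Agent.Helper80.NHM
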