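import Pool.Agent.Helper80.NHM.B.Ibp
open MeasureTheory Filter Topology Set Metric
open scoped ENNReal NNReal RealInnerProductSpace

namespace Pool.Agent.Helper80.NHM

open Pool.Agent.Helper533

variable {n : ℕ}

theorem sphere_osc_enn (hn : 2 ≤ n) : ∃ C : ℝ≥0∞, C ≠ ⊤ ∧ ∀ (U : Set (Sp n)) (T : Sp n → ℝ)
    (H : Sp n → Sp n), IsOpen U → ContinuousOn T U → Polar.LH (n : ℝ) volume U T H →
    ∀ (x₀ : Sp n) (t δ R : ℝ), 0 < t → 0 < δ → δ + t < R → closedBall x₀ R ⊆ U →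
    ∀ M : ℝ, 0 ≤ M → (∀ z ∈ closedBall x₀ δ, ∃ a ∈ sphere z t, ∃ b ∈ sphere z t, M ≤ |T a - T b|) →
    ENNReal.ofReal M ^ (n : ℝ) * ENNReal.ofReal (δ ^ n) ≤ C * ENNReal.ofReal t ^ (n : ℝ) *
      ∫⁻ y in closedBall x₀ R, ‖H y‖ₑ ^ (n : ℝ) := by
  have hn2 : (2 : ℝ) ≤ n := by exact_mod_cast hn
  have hp1 : (1 : ℝ) < n := by linarith
  have hp0 : (0 : ℝ) < n := by linarith
  obtain ⟨C, hC, hCb⟩ := Pool.Agent.Helper795.LusinN.averaged_bound (n := n) hn (p := n) (by linarith)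
  refine ⟨C * (n * (n : ℝ≥0∞) ^ ((n : ℝ) - 1) * n), ?_, ?_⟩
  · refine ENNReal.mul_ne_top hC (ENNReal.mul_ne_top (ENNReal.mul_ne_top (ENNReal.natCast_ne_top _) ?_)
      (ENNReal.natCast_ne_top _))
    exact ENNReal.rpow_ne_top_of_nonneg (by linarith) (ENNReal.natCast_ne_top _)
  intro U T H hU hTc hLH x₀ t δ R ht hδ hR hball M hM hosc
  have hK : IsCompact (closedBall x₀ R) := isCompact_closedBall _ _
  have hmem := (Polar.LH.memLp_restrict hp1 hLH hU hK hball).1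
  set H' : Sp n → Sp n := hmem.1.mk H with hH'
  have hH'm : StronglyMeasurable H' := hmem.1.stronglyMeasurable_mk
  have hHH' : H =ᵐ[volume.restrict (closedBall x₀ R)] H' := hmem.1.ae_eq_mk
  set g : Fin n → Sp n → ℝ := fun j x => H' x j with hg
  have hgm : ∀ j, Measurable (g j) := by
    intro j
    have h1 : Continuous fun v : Sp n => v j := (EuclideanSpace.proj (𝕜 := ℝ) j).continuous
    exact h1.measurable.comp hH'm.measurable
  have hw : ∀ (j : Fin n) (φ : EuclideanSpace ℝ (Fin n) → ℝ),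
        ContDiff ℝ ((⊤ : ℕ∞) : WithTop ℕ∞) φ → HasCompactSupport φ → tsupport φ ⊆ closedBall x₀ R →
        ∫ x, T x * fderiv ℝ φ x (EuclideanSpace.single j (1 : ℝ)) = - ∫ x, g j x * φ x := by
    intro j φ h1 h2 h3
    rw [LH_ibp hn hU hLH (φ := φ) ⟨h1, h2, h3.trans hball⟩ j]
    congr 1
    apply integral_congr_ae
    have h4 := (ae_restrict_iff' (measurableSet_closedBall (x := x₀) (ε := R))).1 hHH'
    filter_upwards [h4] with x hx
    by_cases hxK : x ∈ closedBall x₀ R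
    · simp only [hg]
      rw [hx hxK]
    · have : φ x = 0 := by
        by_contra hne
        exact hxK (h3 (subset_tsupport _ hne))
      rw [this, mul_zero, mul_zero]
  set I : ℝ≥0∞ := ∫⁻ y in closedBall x₀ R, ‖H y‖ₑ ^ (n : ℝ) with hI
  have hgI : ∑ j, ∫⁻ y in closedBall x₀ R, ‖g j y‖ₑ ^ (n : ℝ) ≤ n * I := by
    have h1 : ∀ j, ∫⁻ y in closedBall x₀ R, ‖g j y‖ₑ ^ (n : ℝ) ≤ I := by
      intro j
      apply lintegral_mono_ae
      filter_upwards [hHH'] with x hx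
      rw [hx]
      apply ENNReal.rpow_le_rpow _ hp0.le
      simp only [hg]
      rw [← ofReal_norm, ← ofReal_norm]
      exact ENNReal.ofReal_le_ofReal (PiLp.norm_apply_le _ _)
    calc ∑ j, ∫⁻ y in closedBall x₀ R, ‖g j y‖ₑ ^ (n : ℝ) ≤ ∑ _j : Fin n, I :=
          Finset.sum_le_sum fun j _ => h1 j
      _ = n * I := by simp
  have key : ∀ η : ℝ, 0 < η → ENNReal.ofReal (M - 2 * η) ^ (n : ℝ) * ENNReal.ofReal (δ ^ n) ≤
      C * ENNReal.ofReal t ^ (n : ℝ) * (n * ((n : ℝ≥0∞) ^ ((n : ℝ) - 1) * (n * I))) := by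
    intro η hη
    obtain ⟨φ, hφs, hφf, hφp⟩ := Pool.Agent.Helper795.LusinN.mollify hp1 (f := T) (g := g) hgm
      (x₀ := x₀) (R' := δ + t) (R := R) hR (hTc.mono hball) hw hη
    have hav := hCb (fun _ => φ) (fun _ => hφs) x₀ t δ ht hδ (ENNReal.ofReal (M - 2 * η)) ?_
    · refine hav.trans ?_
      gcongr
      rw [Finset.sum_const, Finset.card_univ, Fintype.card_fin, nsmul_eq_mul]
      gcongr
      exact hφp.trans (by gcongr)
    · intro z hz
      obtain ⟨a, ha, b, hb, hab⟩ := hosc z hz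
      rw [mem_closedBall] at hz
      have hsub1 : closedBall z t ⊆ closedBall x₀ (δ + t) :=
        closedBall_subset_closedBall' (by linarith)
      refine ⟨a, ha, b, hb, ?_⟩
      have e1 := abs_le.1 (hφf a (hsub1 (sphere_subset_closedBall ha)))
      have e2 := abs_le.1 (hφf b (hsub1 (sphere_subset_closedBall hb)))
      have h2 : M - 2 * η ≤ |φ a - φ b| := by
        have h3 : |T a - T b| ≤ |φ a - φ b| + 2 * η := by
          rw [abs_le]
          have e3 := le_abs_self (φ a - φ b)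
          have e4 := neg_abs_le (φ a - φ b)
          constructor <;> linarith [e1.1, e1.2, e2.1, e2.2]
        linarith
      have h4 : ENNReal.ofReal (M - 2 * η) ≤ ‖φ a - φ b‖ₑ := by
        rw [← ofReal_norm, Real.norm_eq_abs]
        exact ENNReal.ofReal_le_ofReal h2
      refine h4.trans ?_
      exact Finset.single_le_sum (f := fun _ : Fin n => ‖φ a - φ b‖ₑ) (fun _ _ => zero_le)
        (Finset.mem_univ (⟨0, by omega⟩ : Fin n))
  have hlim : ENNReal.ofReal M ^ (n : ℝ) * ENNReal.ofReal (δ ^ n) ≤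
      C * ENNReal.ofReal t ^ (n : ℝ) * (n * ((n : ℝ≥0∞) ^ ((n : ℝ) - 1) * (n * I))) := by
    have hcont : Filter.Tendsto (fun η : ℝ => ENNReal.ofReal (M - 2 * η) ^ (n : ℝ) *
        ENNReal.ofReal (δ ^ n)) (𝓝[>] 0) (𝓝 (ENNReal.ofReal M ^ (n : ℝ) * ENNReal.ofReal (δ ^ n))) := by
      have h1 : Continuous fun η : ℝ => ENNReal.ofReal (M - 2 * η) ^ (n : ℝ) :=
        ENNReal.continuous_rpow_const.comp (ENNReal.continuous_ofReal.comp (by fun_prop))
      have h2 := (ENNReal.continuous_mul_const (a := ENNReal.ofReal (δ ^ n)) ENNReal.ofReal_ne_top).comp h1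
      have h3 := (h2.tendsto 0).mono_left (nhdsWithin_le_nhds (s := Ioi 0))
      simpa [Function.comp_def] using h3
    refine le_of_tendsto hcont ?_
    filter_upwards [self_mem_nhdsWithin] with η hη
    exact key η hη
  refine hlim.trans (le_of_eq ?_)
  ring

/-- oscillation on spheres of radius `t`, averaged over the centres in `closedBall x₀ δ` -/
theorem sphere_osc (hn : 2 ≤ n) : ∃ C : ℝ, 0 ≤ C ∧ ∀ (U : Set (Sp n)) (T : Sp n → ℝ)
    (H : Sp n → Sp n), IsOpen U → ContinuousOn T U → Polar.LH (n : ℝ) volume U T H →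
    ∀ (x₀ : Sp n) (t δ R : ℝ), 0 < t → 0 < δ → δ + t < R → closedBall x₀ R ⊆ U →
    ∀ M : ℝ, 0 ≤ M → (∀ z ∈ closedBall x₀ δ, ∃ a ∈ sphere z t, ∃ b ∈ sphere z t, M ≤ |T a - T b|) →
    M ^ n * δ ^ n ≤ C * t ^ n * ∫ y in closedBall x₀ R, ‖H y‖ ^ n := by
  have hn2 : (2 : ℝ) ≤ n := by exact_mod_cast hn
  have hp1 : (1 : ℝ) < n := by linarith
  have hp0 : (0 : ℝ) < n := by linarith
  obtain ⟨C, hC, hCb⟩ := sphere_osc_enn (n := n) hn
  refine ⟨C.toReal, ENNReal.toReal_nonneg, ?_⟩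
  intro U T H hU hTc hLH x₀ t δ R ht hδ hR hball M hM hosc
  have h1 := hCb U T H hU hTc hLH x₀ t δ R ht hδ hR hball M hM hosc
  have hK : IsCompact (closedBall x₀ R) := isCompact_closedBall _ _
  have hmem := (Polar.LH.memLp_restrict hp1 hLH hU hK hball).1
  have hint : Integrable (fun y => ‖H y‖ ^ n) (volume.restrict (closedBall x₀ R)) := by
    have h2 := hmem.integrable_norm_rpow (by simp; omega) ENNReal.ofReal_ne_top
    rw [ENNReal.toReal_ofReal hp0.le] at h2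
    simpa only [Real.rpow_natCast] using h2
  have h3 : ∫⁻ y in closedBall x₀ R, ‖H y‖ₑ ^ (n : ℝ) =
      ENNReal.ofReal (∫ y in closedBall x₀ R, ‖H y‖ ^ n) := by
    rw [ofReal_integral_eq_lintegral_ofReal hint (ae_of_all _ fun y => by positivity)]
    apply lintegral_congr
    intro y
    rw [ENNReal.rpow_natCast, ENNReal.ofReal_pow (norm_nonneg _), ofReal_norm]
  rw [h3, ENNReal.rpow_natCast, ENNReal.rpow_natCast, ← ENNReal.ofReal_pow hM,
    ← ENNReal.ofReal_pow ht.le, ← ENNReal.ofReal_mul (by positivity),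
    ← ENNReal.ofReal_toReal hC, ← ENNReal.ofReal_mul ENNReal.toReal_nonneg,
    ← ENNReal.ofReal_mul (by positivity)] at h1
  have h4 : 0 ≤ ∫ y in closedBall x₀ R, ‖H y‖ ^ n := integral_nonneg fun y => by positivity
  have h5 : 0 ≤ C.toReal * t ^ n * ∫ y in closedBall x₀ R, ‖H y‖ ^ n := by positivity
  exact (ENNReal.ofReal_le_ofReal_iff h5).1 h1

end Pool.Agent.Helper80.NHM
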