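import Pool.Agent.Helper80.NHM.B.MinP
import Pool.Agent.Helper80.NHM.B.SphereOsc
import Pool.Agent.Helper80.NHM.B.LogBall
open MeasureTheory Filter Topology Set Metric
open scoped ENNReal NNReal RealInnerProductSpace

namespace Pool.Agent.Helper80.NHM

open Pool.Agent.Helper533

variable {n : ℕ}

/-- POSITIVITY LEMMA: a nonnegative continuous weak supersolution which is `≥ a` somewhere on each
sphere `S(z, 3r/2)`, `z ∈ closedBall x (r/8)`, is `≥ κ a` on `closedBall x r`. -/
theorem positivity (hn : 2 ≤ n) {α β Cd θ Cs lam Cp : ℝ} (hα : 0 < α) (hαβ : α ≤ β)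
    (hadm : Polar.Adm (n : ℝ) (volume : Measure (Sp n)) Cd θ Cs lam Cp) :
    ∃ κ : ℝ, 0 < κ ∧ ∀ A : Sp n → Sp n → Sp n, AOp n α β A → ∀ (G : Set (Sp n)), IsOpen G →
    ∀ (s : Sp n → ℝ) (S : Sp n → Sp n), Polar.Sup A (n : ℝ) volume G s S → ContinuousOn s G →
    (∀ x ∈ G, 0 ≤ s x) → ∀ (x : Sp n) (r : ℝ), 0 < r → closedBall x (2 * r) ⊆ G →
    ∀ a : ℝ, 0 < a → (∀ z ∈ closedBall x (r / 8), ∃ b ∈ sphere z (3 * r / 2), a ≤ s b) →
    ∀ w ∈ closedBall x r, κ * a ≤ s w := by
  obtain ⟨C, hC, hosc⟩ := sphere_osc (n := n) hn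
  obtain ⟨CL, hCL, hlog⟩ := log_ball (n := n) hn hα hαβ
  have hp : (1:ℝ) < (n:ℝ) := by exact_mod_cast (by omega : 1 < n)
  have hn0 : n ≠ 0 := by omega
  obtain ⟨X, hX⟩ : ∃ X : ℝ, X = C * CL * 96 ^ n := ⟨_, rfl⟩
  have hX0 : 0 ≤ X := by rw [hX]; exact mul_nonneg (mul_nonneg hC hCL) (pow_nonneg (by norm_num) n)
  refine ⟨Real.exp (-(1 + X)), Real.exp_pos _, ?_⟩
  intro A hA G hG s S hs hc hs0 x r hr hG2 a ha hb w hw
  have hwG : w ∈ G := hG2 (closedBall_subset_closedBall (by linarith) hw)
  have key : ∀ e : ℝ, 0 < e → Real.exp (-(1 + X)) * (a + e) ≤ s w + e := by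
    intro e he
    have hexp1 : Real.exp (-(1 + X)) ≤ 1 := Real.exp_le_one_iff.2 (by linarith)
    rcases le_or_gt a (s w) with haw | haw
    · calc Real.exp (-(1 + X)) * (a + e) ≤ 1 * (a + e) :=
            mul_le_mul_of_nonneg_right hexp1 (by linarith)
        _ ≤ s w + e := by linarith
    have hsw : 0 ≤ s w := hs0 w hwG
    have hLH : Polar.LH (n : ℝ) (volume : Measure (Sp n)) G (fun y => s y + e) S :=
      (Polar.LH.add hp hs.1 (Polar.LH.const e)).congr (Eventually.of_forall fun x _ => rfl)
        (Eventually.of_forall fun x _ => by simp)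
    have hsup : Polar.Sup A (n : ℝ) volume G (fun y => s y + e) S := ⟨hLH, hs.2⟩
    have hce : ContinuousOn (fun y => s y + e) G := hc.add continuousOn_const
    obtain ⟨hL, hI⟩ := hlog A hA G hG (fun y => s y + e) S hsup hce e he
      (fun y hy => by have := hs0 y hy; linarith)
    have hint := (hI x (7 * r / 4) (2 * r) (by linarith) (by linarith) hG2).2
    obtain ⟨M, hM⟩ : ∃ M : ℝ, M = Real.log (a + e) - Real.log (s w + e) := ⟨_, rfl⟩
    have hM0 : 0 ≤ M := by
      rw [hM]
      have := Real.log_le_log (show 0 < s w + e by linarith) (show s w + e ≤ a + e by linarith)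
      linarith
    have h74 : closedBall x (7 * r / 4) ⊆ G :=
      (closedBall_subset_closedBall (by linarith)).trans hG2
    have hzb : ∀ z ∈ closedBall x (r / 8), closedBall z (3 * r / 2) ⊆ G := by
      intro z hz y hy
      apply hG2
      rw [mem_closedBall] at hz hy ⊢
      linarith [dist_triangle y z x]
    have hTc : ContinuousOn (fun y => Real.log (s y + e)) G :=
      hce.log (fun y hy => by have := hs0 y hy; linarith)
    have hmain := hosc G (fun y => Real.log (s y + e)) (fun y => (s y + e)⁻¹ • S y) hG hTc hL x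
      (3 * r / 2) (r / 8) (7 * r / 4) (by linarith) (by linarith) (by linarith) h74 M hM0 (by
        intro z hz
        obtain ⟨b1, hb1, hab1⟩ := hb z hz
        have hne : (3 * r / 2) ≠ 0 := by linarith
        obtain ⟨b2, hb2, hb2w⟩ : ∃ b2 ∈ sphere z (3 * r / 2), s b2 ≤ s w := by
          by_contra hcon
          push Not at hcon
          obtain ⟨b0, hb0, hb0m⟩ := (isCompact_sphere z (3 * r / 2)).exists_isMinOn ⟨b1, hb1⟩
            (hc.mono (sphere_subset_closedBall.trans (hzb z hz)))
          have h1 := minP hn hA hadm hG hs hc (W := ball z (3 * r / 2)) isOpen_ball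
            (by rw [closure_ball z hne]; exact isCompact_closedBall _ _)
            (by rw [closure_ball z hne]; exact hzb z hz) (m := s b0)
            (by rw [frontier_ball z hne]; intro c hc'; exact hb0m hc') w (by
              rw [mem_ball]
              rw [mem_closedBall] at hz hw
              have := dist_triangle w x z
              rw [dist_comm x z] at this
              linarith)
          exact absurd h1 (not_le.2 (hcon b0 hb0))
        refine ⟨b1, hb1, b2, hb2, ?_⟩
        have hb1G : b1 ∈ G := hzb z hz (sphere_subset_closedBall hb1)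
        have hb2G : b2 ∈ G := hzb z hz (sphere_subset_closedBall hb2)
        have h1 : Real.log (a + e) ≤ Real.log (s b1 + e) :=
          Real.log_le_log (by linarith) (by linarith)
        have h2 : Real.log (s b2 + e) ≤ Real.log (s w + e) :=
          Real.log_le_log (by linarith [hs0 b2 hb2G]) (by linarith)
        refine le_trans ?_ (le_abs_self _)
        linarith)
    have hr8 : 0 < (r / 8) ^ n := pow_pos (by linarith) n
    have hfac : (2 * r) / (2 * r - 7 * r / 4) = 8 := by
      field_simp
      ring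
    rw [hfac] at hint
    have h1 : M ^ n * (r / 8) ^ n ≤ C * (3 * r / 2) ^ n * (CL * 8 ^ n) :=
      hmain.trans (mul_le_mul_of_nonneg_left hint
        (mul_nonneg hC (pow_nonneg (by linarith) n)))
    have h2 : C * (3 * r / 2) ^ n * (CL * 8 ^ n) = X * (r / 8) ^ n := by
      have : (3 * r / 2) = 12 * (r / 8) := by ring
      rw [this, mul_pow, hX]
      have h96 : (96:ℝ) ^ n = 12 ^ n * 8 ^ n := by rw [← mul_pow]; norm_num
      rw [h96]
      ring
    rw [h2] at h1
    have h3 : M ^ n ≤ X := le_of_mul_le_mul_right h1 hr8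
    have h4 : M ≤ 1 + X := by
      have h5 : (1 + X) ≤ (1 + X) ^ n := le_self_pow₀ (by linarith) hn0
      have h6 : M ^ n ≤ (1 + X) ^ n := by linarith
      exact (pow_le_pow_iff_left₀ hM0 (by linarith) hn0).1 h6
    have h7 : Real.log (a + e) - (1 + X) ≤ Real.log (s w + e) := by rw [hM] at h4; linarith
    calc Real.exp (-(1 + X)) * (a + e)
        = Real.exp (Real.log (a + e) - (1 + X)) := by
          rw [sub_eq_add_neg, Real.exp_add, Real.exp_log (by linarith)]
          ring
      _ ≤ Real.exp (Real.log (s w + e)) := Real.exp_le_exp.2 h7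
      _ = s w + e := Real.exp_log (by linarith)
  refine le_of_forall_pos_le_add ?_
  intro e he
  have h1 := key e he
  have h2 : Real.exp (-(1 + X)) * a ≤ Real.exp (-(1 + X)) * (a + e) :=
    mul_le_mul_of_nonneg_left (by linarith) (Real.exp_pos _).le
  linarith

end Pool.Agent.Helper80.NHM
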