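import Pool.Agent.Helper80.NHM.B.Deps
import Pool.Agent.Helper80.NHM.B.Positivity
import Pool.Agent.Helper80.NHM.B.HarmApi
open MeasureTheory Filter Topology Set Metric
open scoped ENNReal NNReal RealInnerProductSpace

namespace Pool.Agent.Helper80.NHM

open Pool.Agent.Helper533

variable {n : ℕ}

/-- OPEN, local: if the image of some closed ball about `x₀` is not a neighbourhood of `f x₀`, then
`f` is constant near `x₀`. -/
theorem open_local (hn : 2 ≤ n) {α β α' β' : ℝ} {Astar A : Sp n → Sp n → Sp n}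
    (hAs : AOp n α β Astar) (hA : AOp n α' β' A) {G : Set (Sp n)} {f : Sp n → Sp n}
    (hG : IsOpen G) (hf : Morph Astar A G f) {x₀ : Sp n} {r : ℝ} (hr : 0 < r)
    (hrG : closedBall x₀ (3 * r) ⊆ G) (hno : f '' closedBall x₀ (3 * r) ∉ 𝓝 (f x₀)) :
    ∀ w ∈ closedBall x₀ r, f w = f x₀ := by
  intro w hw
  by_contra hne
  haveI : Nontrivial (Sp n) := by
    haveI : Nonempty (Fin n) := ⟨⟨0, by omega⟩⟩
    infer_instance
  set F : Set (Sp n) := f '' closedBall x₀ (3 * r) with hF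
  have hFc : IsCompact F :=
    (isCompact_closedBall x₀ (3 * r)).image_of_continuousOn (hf.cont.mono hrG)
  have hx₀F : f x₀ ∈ F := ⟨x₀, mem_closedBall_self (by positivity), rfl⟩
  have hFne : F.Nonempty := ⟨_, hx₀F⟩
  obtain ⟨S, hS, hFS⟩ : ∃ S : ℝ, 0 < S ∧ F ⊆ ball (f x₀) S := by
    obtain ⟨R, hR⟩ := hFc.isBounded.subset_ball (f x₀)
    exact ⟨max R 1, lt_max_of_lt_right one_pos, hR.trans (ball_subset_ball (le_max_left _ _))⟩
  obtain ⟨k, Φ, t₀, ht₀, hk, hpot⟩ := potentials hn hA (f x₀) hS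
  obtain ⟨Cd, θ, Cs, lam, Cp, hadm⟩ := adm_volume (n := n) hn
  obtain ⟨κ, hκ, hpos⟩ := positivity hn hAs.pos hAs.le hadm
  set D := dist (f w) (f x₀) with hD
  have hD0 : 0 < D := dist_pos.2 hne
  set d₀ := min (D / 2) S with hd₀
  have hd₀pos : 0 < d₀ := lt_min (by positivity) hS
  -- a pole close to `f x₀` and off `F`
  have hev : ∀ᶠ d in 𝓝[>] (0:ℝ), max 0 (Φ d₀ / κ) < k d := hk.eventually (eventually_gt_atTop _)
  rw [eventually_nhdsWithin_iff, Metric.eventually_nhds_iff] at hev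
  obtain ⟨δ, hδ, hev⟩ := hev
  obtain ⟨y, hy, hyF⟩ : ∃ y, dist y (f x₀) < min δ (min (S / 8) (D / 2)) ∧ y ∉ F := by
    by_contra hcon
    push Not at hcon
    apply hno
    rw [Metric.mem_nhds_iff]
    refine ⟨min δ (min (S / 8) (D / 2)), by positivity, fun y hy => hcon y hy⟩
  have hyδ : dist y (f x₀) < δ := lt_of_lt_of_le hy (min_le_left _ _)
  have hyS : dist y (f x₀) < S / 8 := lt_of_lt_of_le hy ((min_le_right _ _).trans (min_le_left _ _))
  have hyD : dist y (f x₀) < D / 2 := lt_of_lt_of_le hy ((min_le_right _ _).trans (min_le_right _ _))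
  have hyne : y ≠ f x₀ := fun h => hyF (h ▸ hx₀F)
  have hd₁ : 0 < dist y (f x₀) := dist_pos.2 hyne
  have hkd : max 0 (Φ d₀ / κ) < k (dist y (f x₀)) :=
    hev (by rw [Real.dist_eq, sub_zero, abs_of_pos hd₁]; exact hyδ) hd₁
  -- distance to `F`
  have hdF : 0 < infDist y F := (hFc.isClosed.notMem_iff_infDist_pos hFne).1 hyF
  set dF := min (infDist y F) S with hdF'
  have hdFpos : 0 < dF := lt_min hdF hS
  -- choice of `t`
  have hev2 : ∀ᶠ t in 𝓝[>] (0:ℝ), Φ dF < k t := hk.eventually (eventually_gt_atTop _)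
  have hev3 : ∀ᶠ t in 𝓝[>] (0:ℝ), t < min t₀ (min dF (min (dist y (f x₀)) (min d₀ S))) :=
    (eventually_lt_nhds (by positivity)).filter_mono nhdsWithin_le_nhds
  have hev4 : ∀ᶠ t in 𝓝[>] (0:ℝ), 0 < t := eventually_mem_nhdsWithin
  obtain ⟨t, ht1, ht2, ht3⟩ := (hev2.and (hev3.and hev4)).exists
  have htt₀ : t < t₀ := lt_of_lt_of_le ht2 (min_le_left _ _)
  have ht2a := lt_of_lt_of_le ht2 (min_le_right _ _)
  have htdF : t < dF := lt_of_lt_of_le ht2a (min_le_left _ _)
  have ht2b := lt_of_lt_of_le ht2a (min_le_right _ _)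
  have htd₁ : t < dist y (f x₀) := lt_of_lt_of_le ht2b (min_le_left _ _)
  have ht2c := lt_of_lt_of_le ht2b (min_le_right _ _)
  have htd₀ : t < d₀ := lt_of_lt_of_le ht2c (min_le_left _ _)
  have htS : t < S := lt_of_lt_of_le ht2c (min_le_right _ _)
  obtain ⟨ω, M, hωc, hM, hω, hωM, hωH, hlow, hupp⟩ := hpot y (mem_closedBall.2 hyS.le) t ht3 htt₀
  have hMk : k t ≤ M := by
    have h1 := hlow t le_rfl htS.le y (by rw [dist_self]; exact ht3.le)
    rw [hωM y (mem_closedBall_self ht3.le)] at h1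
    exact h1
  have hωF : ∀ z ∈ F, ω z < M := by
    intro z hz
    have h1 : dF ≤ dist z y := by
      refine (min_le_left _ _).trans ?_
      rw [dist_comm]
      exact infDist_le_dist_of_mem hz
    have h2 := hupp dF htdF.le (min_le_right _ _) z h1
    linarith
  -- the open set
  set G' : Set (Sp n) := ball (f x₀) S ∩ {z | ω z < M} with hG'
  have hG'o : IsOpen G' := isOpen_ball.inter (isOpen_lt hωc continuous_const)
  set Ω : Set (Sp n) := G ∩ f ⁻¹' G' with hΩ
  have hΩo : IsOpen Ω := hf.cont.isOpen_inter_preimage hG hG'o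
  have hv : Harm Astar Ω (ω ∘ f) := hf.pull G' hG'o ω hωH
  have hBΩ : closedBall x₀ (3 * r) ⊆ Ω := fun x hx =>
    ⟨hrG hx, hFS ⟨x, hx, rfl⟩, hωF _ ⟨x, hx, rfl⟩⟩
  obtain ⟨U, hU⟩ := Harm.sup hn hAs hv
  have hvc : ContinuousOn (ω ∘ f) Ω := hv.1
  -- value at `x₀`
  have ha1 : k (dist y (f x₀)) ≤ (ω ∘ f) x₀ := by
    refine hlow (dist y (f x₀)) htd₁.le (by linarith) (f x₀) ?_
    rw [dist_comm]
  have hkpos : 0 < k (dist y (f x₀)) := lt_of_le_of_lt (le_max_left _ _) hkd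
  have hapos : 0 < (ω ∘ f) x₀ := lt_of_lt_of_le hkpos ha1
  have hsph : ∀ z ∈ closedBall x₀ (r / 8), ∃ b ∈ sphere z (3 * r / 2), (ω ∘ f) x₀ ≤ (ω ∘ f) b := by
    intro z hz
    rw [mem_closedBall] at hz
    have hr2 : 0 < 3 * r / 2 := by positivity
    have hsub : closedBall z (3 * r / 2) ⊆ closedBall x₀ (3 * r) := by
      apply closedBall_subset_closedBall'
      linarith
    have hne : (sphere z (3 * r / 2)).Nonempty := NormedSpace.sphere_nonempty.2 hr2.le
    obtain ⟨b, hb, hbmax⟩ := (isCompact_sphere z (3 * r / 2)).exists_isMaxOn hne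
      (hvc.mono ((sphere_subset_closedBall.trans hsub).trans hBΩ))
    refine ⟨b, hb, ?_⟩
    have hcl : closure (ball z (3 * r / 2)) = closedBall z (3 * r / 2) := closure_ball z hr2.ne'
    refine Harm.maxP hn hAs hadm hΩo hv (W := ball z (3 * r / 2)) isOpen_ball ?_ ?_ ?_ x₀ ?_
    · rw [hcl]; exact isCompact_closedBall _ _
    · rw [hcl]; exact hsub.trans hBΩ
    · intro a ha
      exact hbmax (frontier_ball_subset_sphere ha)
    · rw [mem_ball, dist_comm]
      linarith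
  have key := hpos Astar hAs Ω hΩo (ω ∘ f) U hU hvc (fun x _ => (hω (f x)).1) x₀ r hr
    ((closedBall_subset_closedBall (by linarith)).trans hBΩ) _ hapos hsph w hw
  have hup : (ω ∘ f) w ≤ Φ d₀ := by
    refine hupp d₀ htd₀.le (min_le_right _ _) (f w) ?_
    refine (min_le_left _ _).trans ?_
    have h1 := dist_triangle (f w) y (f x₀)
    rw [← hD] at h1
    linarith
  have hfin : κ * k (dist y (f x₀)) ≤ Φ d₀ :=
    ((mul_le_mul_of_nonneg_left ha1 hκ.le).trans key).trans hup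
  have h5 : Φ d₀ / κ < k (dist y (f x₀)) := lt_of_le_of_lt (le_max_right _ _) hkd
  rw [div_lt_iff₀ hκ] at h5
  linarith

end Pool.Agent.Helper80.NHM
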