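import Pool.Agent.Helper80.NHM.B.LightLocal
import Pool.Agent.Helper80.NHM.B.OpenLocal
open MeasureTheory Filter Topology Set Metric
open scoped ENNReal NNReal RealInnerProductSpace

namespace Pool.Agent.Helper80.NHM

open Pool.Agent.Helper533

variable {n : ℕ}

theorem light_core {G : Set (Sp n)} {f : Sp n → Sp n}
    (hG : IsOpen G) (hGc : IsPreconnected G) (hcont : ContinuousOn f G)
    (hll : ∀ K : Set (Sp n), IsPreconnected K → K ⊆ G → ∀ y₀ : Sp n, (∀ x ∈ K, f x = y₀) →
      ∀ x₀ ∈ K, ∀ x₁ ∈ K, ∀ r : ℝ, 0 < r → closedBall x₀ (2 * r) ⊆ G →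
        2 * r < dist x₁ x₀ → ∀ w ∈ closedBall x₀ r, f w = y₀)
    (hne : ∃ x ∈ G, ∃ y ∈ G, f x ≠ f y) : IsLightOn G f := by
  intro K hKG hK hconst
  by_contra hns
  rw [Set.not_subsingleton_iff] at hns
  obtain ⟨x₀, hx₀, x₁, hx₁, hx01⟩ := hns
  set y := f x₀ with hy
  have hKy : ∀ x ∈ K, f x = y := fun x hx => hconst x hx x₀ hx₀
  set Z : Set (Sp n) := {x | x ∈ G ∧ ∃ r > 0, ∀ w ∈ ball x r, f w = y} with hZ
  have hZopen : IsOpen Z := by
    rw [Metric.isOpen_iff]
    rintro x ⟨hxG, r, hr, hw⟩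
    obtain ⟨s, hs, hsG⟩ := Metric.isOpen_iff.1 hG x hxG
    refine ⟨min (r / 2) s, lt_min (by linarith) hs, ?_⟩
    intro z hz
    rw [mem_ball] at hz
    have hz1 : dist z x < r / 2 := lt_of_lt_of_le hz (min_le_left _ _)
    have hz2 : dist z x < s := lt_of_lt_of_le hz (min_le_right _ _)
    refine ⟨hsG (by simpa using hz2), r / 2, by linarith, ?_⟩
    intro w hw'
    apply hw
    rw [mem_ball] at hw' ⊢
    have := dist_triangle w z x
    linarith
  have hZG : Z ⊆ G := fun x hx => hx.1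
  have hZy : ∀ x ∈ Z, f x = y := by
    rintro x ⟨_, r, hr, hw⟩
    exact hw x (mem_ball_self hr)
  have hx0Z : x₀ ∈ Z := by
    refine ⟨hKG hx₀, ?_⟩
    obtain ⟨s, hs, hsG⟩ := Metric.isOpen_iff.1 hG x₀ (hKG hx₀)
    have hd : 0 < dist x₁ x₀ := dist_pos.2 (Ne.symm hx01)
    set r := min (s / 4) (dist x₁ x₀ / 4) with hr
    have hr0 : 0 < r := lt_min (by linarith) (by linarith)
    have h1 : r ≤ s / 4 := min_le_left _ _
    have h2 : r ≤ dist x₁ x₀ / 4 := min_le_right _ _
    refine ⟨r, hr0, ?_⟩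
    intro w hw
    refine hll K hK hKG y hKy x₀ hx₀ x₁ hx₁ r hr0 ?_ (by linarith) w (ball_subset_closedBall hw)
    refine (closedBall_subset_ball ?_).trans hsG
    linarith
  -- relatively closed
  have hcl : closure Z ∩ G ⊆ Z := by
    rintro p ⟨hpZ, hpG⟩
    by_contra hpnZ
    obtain ⟨s, hs, hsG⟩ := Metric.isOpen_iff.1 hG p hpG
    set ρ := s / 8 with hρ
    have hρ0 : 0 < ρ := by positivity
    obtain ⟨x', hx'Z, hx'p⟩ := Metric.mem_closure_iff.1 hpZ (ρ / 4) (by positivity)
    -- e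
    have hZc : IsClosed Zᶜ := hZopen.isClosed_compl
    have hZcne : (Zᶜ : Set (Sp n)).Nonempty := ⟨p, hpnZ⟩
    obtain ⟨q, hqZ, hqe⟩ := hZc.exists_infDist_eq_dist hZcne x'
    set e := dist x' q with he
    have he0 : 0 < e := by
      rw [he]
      apply dist_pos.2
      rintro rfl
      exact hqZ hx'Z
    have hele : e ≤ dist x' p := by
      rw [← hqe]
      exact Metric.infDist_le_dist_of_mem hpnZ
    have hpx' : dist x' p < ρ / 4 := by rw [dist_comm]; exact hx'p
    have hballZ : ball x' e ⊆ Z := by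
      intro z hz
      by_contra hzn
      have h1 := Metric.infDist_le_dist_of_mem (x := x') (show z ∈ Zᶜ from hzn)
      rw [hqe] at h1
      rw [mem_ball, dist_comm] at hz
      exact absurd hz (not_lt.2 h1)
    have hcbG : closedBall x' e ⊆ G := by
      intro z hz
      apply hsG
      rw [mem_closedBall] at hz
      rw [mem_ball]
      have := dist_triangle z x' p
      linarith
    have hcb : ∀ z ∈ closedBall x' e, f z = y := by
      intro z hz
      have hzc : z ∈ closure (ball x' e) := by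
        rw [closure_ball x' he0.ne']; exact hz
      have hcz : ContinuousWithinAt f (ball x' e) z :=
        (hcont z (hcbG hz)).mono (ball_subset_closedBall.trans hcbG)
      have hmem := hcz.mem_closure_image hzc
      have himg : f '' ball x' e ⊆ {y} := by
        rintro _ ⟨w, hw, rfl⟩
        exact hZy w (hballZ hw)
      have := closure_mono himg hmem
      rw [closure_singleton] at this
      exact this
    have hqcb : q ∈ closedBall x' e := by
      rw [mem_closedBall, dist_comm]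
    have hx'cb : x' ∈ closedBall x' e := mem_closedBall_self he0.le
    apply hqZ
    refine ⟨hcbG hqcb, e / 4, by positivity, ?_⟩
    intro w hw
    refine hll (closedBall x' e) (convex_closedBall x' e).isPreconnected hcbG y hcb q hqcb x' hx'cb
      (e / 4) (by positivity) ?_ (by rw [← he]; linarith) w (ball_subset_closedBall hw)
    intro z hz
    apply hsG
    rw [mem_closedBall] at hz
    rw [mem_ball]
    have h1 := dist_triangle z q p
    have h2 := dist_triangle q x' p
    rw [dist_comm q x', ← he] at h2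
    linarith
  have hGZ : G ⊆ Z := by
    refine hGc.subset_of_closure_inter_subset hZopen ⟨x₀, hKG hx₀, hx0Z⟩ hcl
  obtain ⟨a, ha, b, hb, hab⟩ := hne
  exact hab ((hZy a (hGZ ha)).trans (hZy b (hGZ hb)).symm)

theorem open_core (hn : 2 ≤ n) {G : Set (Sp n)} {f : Sp n → Sp n}
    (hlight : IsLightOn G f)
    (hol : ∀ (x₀ : Sp n) (r : ℝ), 0 < r → closedBall x₀ (3 * r) ⊆ G →
      f '' closedBall x₀ (3 * r) ∉ 𝓝 (f x₀) → ∀ w ∈ closedBall x₀ r, f w = f x₀) :
    IsOpenMapOn G f := by
  intro V hVG hV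
  rw [isOpen_iff_mem_nhds]
  rintro _ ⟨x₀, hx₀, rfl⟩
  by_contra hno
  obtain ⟨s, hs, hsV⟩ := Metric.isOpen_iff.1 hV x₀ hx₀
  set r := s / 4 with hr
  have hr0 : 0 < r := by positivity
  have hcbV : closedBall x₀ (3 * r) ⊆ V := by
    refine (closedBall_subset_ball ?_).trans hsV
    linarith
  have hc := hol x₀ r hr0 (hcbV.trans hVG) (fun h => hno (mem_of_superset h (image_mono hcbV)))
  have hsub := hlight (closedBall x₀ r) ((closedBall_subset_closedBall (by linarith)).trans
    (hcbV.trans hVG)) (convex_closedBall x₀ r).isPreconnected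
    (fun a ha b hb => (hc a ha).trans (hc b hb).symm)
  have : Nonempty (Fin n) := ⟨⟨0, by omega⟩⟩
  have : Nontrivial (Sp n) := inferInstance
  obtain ⟨v, hv⟩ := exists_norm_eq (Sp n) hr0.le
  have h1 : x₀ ∈ closedBall x₀ r := mem_closedBall_self hr0.le
  have h2 : x₀ + v ∈ closedBall x₀ r := by
    rw [mem_closedBall, dist_eq_norm, add_sub_cancel_left, hv]
  have h3 := hsub h1 h2
  have h4 : v = 0 := by
    have : x₀ + 0 = x₀ + v := by simpa using h3
    exact (add_left_cancel this).symm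
  rw [h4, norm_zero] at hv
  linarith

/-- LIGHT, global -/
theorem light_global (hn : 2 ≤ n) {α β α' β' : ℝ} {Astar A : Sp n → Sp n → Sp n}
    (hAs : AOp n α β Astar) (hA : AOp n α' β' A) {G : Set (Sp n)} {f : Sp n → Sp n}
    (hG : IsOpen G) (hGc : IsPreconnected G) (hf : Morph Astar A G f)
    (hne : ∃ x ∈ G, ∃ y ∈ G, f x ≠ f y) : IsLightOn G f :=
  light_core hG hGc hf.cont
    (fun _K hK hKG _y₀ hy _x₀ hx₀ _x₁ hx₁ _r hr hrG hd =>
      light_local hn hAs hA hG hf hK hKG hy hx₀ hx₁ hr hrG hd) hne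

/-- OPEN, global -/
theorem open_global (hn : 2 ≤ n) {α β α' β' : ℝ} {Astar A : Sp n → Sp n → Sp n}
    (hAs : AOp n α β Astar) (hA : AOp n α' β' A) {G : Set (Sp n)} {f : Sp n → Sp n}
    (hG : IsOpen G) (hGc : IsPreconnected G) (hf : Morph Astar A G f)
    (hne : ∃ x ∈ G, ∃ y ∈ G, f x ≠ f y) : IsOpenMapOn G f :=
  open_core hn (light_global hn hAs hA hG hGc hf hne)
    (fun _x₀ _r hr hrG hno => open_local hn hAs hA hG hf hr hrG hno)

end Pool.Agent.Helper80.NHM
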