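import Pool.Agent.Helper80.NHM.Base
import Pool.Agent.Helper533.Deny.Final
import Pool.Agent.Helper795.LusinN
open MeasureTheory Filter Topology Set Metric
open scoped ENNReal NNReal RealInnerProductSpace

namespace Pool.Agent.Helper80.NHM

open Pool.Agent.Helper533

variable {n : ℕ}

theorem LH_ibp_comp_memLp {V : Sp n → Sp n} {q : ℝ≥0∞} (h : MemLp V q volume) (j : Fin n) :
    MemLp (fun x => V x j) q volume := by
  refine h.mono ?_ (Eventually.of_forall fun x => PiLp.norm_apply_le (V x) j)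
  exact (EuclideanSpace.proj (𝕜 := ℝ) j).continuous.comp_aestronglyMeasurable h.1

theorem LH_ibp_comp_norm (V : Sp n → Sp n) (q : ℝ≥0∞) (j : Fin n) :
    eLpNorm (fun x => V x j) q volume ≤ eLpNorm V q volume :=
  eLpNorm_mono fun x => PiLp.norm_apply_le (V x) j

theorem LH_ibp_fderiv (f : Sp n → ℝ) (x : Sp n) (j : Fin n) :
    fderiv ℝ f x (EuclideanSpace.single j (1 : ℝ)) = (gradient f x) j := by
  have h1 : ⟪gradient f x, EuclideanSpace.single j (1 : ℝ)⟫
      = fderiv ℝ f x (EuclideanSpace.single j (1 : ℝ)) := by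
    unfold gradient
    exact InnerProductSpace.toDual_symm_apply
  rw [← h1, EuclideanSpace.inner_single_right]
  simp

theorem LH_ibp_holder {p : ℝ} (hp : 1 < p) :
    ENNReal.HolderTriple (ENNReal.ofReal p / ENNReal.ofReal (p - 1)) (ENNReal.ofReal p) 1 := by
  refine ⟨?_⟩
  have hp0 : 0 < p := by linarith
  have hp1 : 0 < p - 1 := by linarith
  rw [← ENNReal.ofReal_div_of_pos hp1, ← ENNReal.ofReal_inv_of_pos (by positivity),
    ← ENNReal.ofReal_inv_of_pos hp0, ← ENNReal.ofReal_add (by positivity) (by positivity), inv_one,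
    ← ENNReal.ofReal_one]
  congr 1
  field_simp
  ring

theorem LH_ibp_lim {p : ℝ} (hp : 1 < p) {g f : Sp n → ℝ} {fk : ℕ → Sp n → ℝ}
    (hg : MemLp g (ENNReal.ofReal p / ENNReal.ofReal (p - 1)) volume)
    (hf : MemLp f (ENNReal.ofReal p) volume) (hfk : ∀ k, MemLp (fk k) (ENNReal.ofReal p) volume)
    (hlim : Tendsto (fun k => eLpNorm (fun x => f x - fk k x) (ENNReal.ofReal p) volume) atTop (𝓝 0)) :
    Tendsto (fun k => ∫ x, g x * fk k x) atTop (𝓝 (∫ x, g x * f x)) := by
  haveI := LH_ibp_holder hp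
  have hnorm : ∀ h : Sp n → ℝ, MemLp h (ENNReal.ofReal p) volume →
      eLpNorm (fun x => g x * h x) 1 volume ≤
        eLpNorm g (ENNReal.ofReal p / ENNReal.ofReal (p - 1)) volume *
          eLpNorm h (ENNReal.ofReal p) volume := by
    intro h hh
    have h1 := eLpNorm_le_eLpNorm_mul_eLpNorm_of_nnnorm
      (p := ENNReal.ofReal p / ENNReal.ofReal (p - 1))
      (q := ENNReal.ofReal p) (r := 1) (μ := (volume : Measure (Sp n))) hg.1 hh.1
      (fun a b => a * b) 1 (Eventually.of_forall fun x => by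
        rw [one_mul]
        exact (nnnorm_mul (g x) (h x)).le)
    simpa using h1
  have hint : ∀ h : Sp n → ℝ, MemLp h (ENNReal.ofReal p) volume →
      Integrable (fun x => g x * h x) volume := by
    intro h hh
    rw [← memLp_one_iff_integrable]
    refine ⟨hg.1.mul hh.1, ?_⟩
    exact lt_of_le_of_lt (hnorm h hh) (ENNReal.mul_lt_top hg.2 hh.2)
  refine tendsto_integral_of_L1' _ (hint f hf).aestronglyMeasurable
    (Eventually.of_forall fun k => hint _ (hfk k)) ?_
  have hb : ∀ k, eLpNorm ((fun x => g x * fk k x) - fun x => g x * f x) 1 volume ≤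
      eLpNorm g (ENNReal.ofReal p / ENNReal.ofReal (p - 1)) volume *
        eLpNorm (fun x => f x - fk k x) (ENNReal.ofReal p) volume := by
    intro k
    have e : ((fun x => g x * fk k x) - fun x => g x * f x)
        = - (fun x => g x * (f x - fk k x)) := by
      ext x
      simp only [Pi.sub_apply, Pi.neg_apply]
      ring
    rw [e, eLpNorm_neg]
    exact hnorm _ (hf.sub (hfk k))
  have hz := ENNReal.Tendsto.const_mul hlim (Or.inr hg.2.ne)
  rw [mul_zero] at hz
  exact tendsto_of_tendsto_of_tendsto_of_le_of_le tendsto_const_nhds hz (fun _ => zero_le) hb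

theorem LH_ibp_smooth {D D' : Set (Sp n)} {ψ φ : Sp n → ℝ} (hψ : Polar.Cc D ψ)
    (hφ : Polar.Cc D' φ) (j : Fin n) :
    ∫ x, (gradient φ x) j * ψ x = - ∫ x, φ x * (gradient ψ x) j := by
  have h1 : ∀ x, (gradient φ x) j = fderiv ℝ φ x (EuclideanSpace.single j (1 : ℝ)) :=
    fun x => (LH_ibp_fderiv φ x j).symm
  have h2 : ∀ x, (gradient ψ x) j = fderiv ℝ ψ x (EuclideanSpace.single j (1 : ℝ)) :=
    fun x => (LH_ibp_fderiv ψ x j).symm
  have c1 : Continuous fun x => fderiv ℝ φ x (EuclideanSpace.single j (1 : ℝ)) :=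
    (hφ.smooth.continuous_fderiv (by simp)).clm_apply continuous_const
  have c2 : Continuous fun x => fderiv ℝ ψ x (EuclideanSpace.single j (1 : ℝ)) :=
    (hψ.smooth.continuous_fderiv (by simp)).clm_apply continuous_const
  have i1 : Integrable (fun x => fderiv ℝ ψ x (EuclideanSpace.single j (1 : ℝ)) * φ x) volume :=
    (c2.mul hφ.cont).integrable_of_hasCompactSupport hφ.comp.mul_left
  have i2 : Integrable (fun x => ψ x * fderiv ℝ φ x (EuclideanSpace.single j (1 : ℝ))) volume :=
    (hψ.cont.mul c1).integrable_of_hasCompactSupport hψ.comp.mul_right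
  have i3 : Integrable (fun x => ψ x * φ x) volume :=
    (hψ.cont.mul hφ.cont).integrable_of_hasCompactSupport hφ.comp.mul_left
  have h3 := integral_mul_fderiv_eq_neg_fderiv_mul_of_integrable i1 i2 i3
    (fun x _ => hψ.diff x) (fun x _ => hφ.diff x)
  simp only [h1, h2]
  have e1 : ∫ x, fderiv ℝ φ x (EuclideanSpace.single j (1 : ℝ)) * ψ x
      = ∫ x, ψ x * fderiv ℝ φ x (EuclideanSpace.single j (1 : ℝ)) := by
    congr 1
    ext x
    ring
  have e2 : ∫ x, φ x * fderiv ℝ ψ x (EuclideanSpace.single j (1 : ℝ))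
      = ∫ x, fderiv ℝ ψ x (EuclideanSpace.single j (1 : ℝ)) * φ x := by
    congr 1
    ext x
    ring
  rw [e1, e2]
  exact h3

/-- the gradient in the local class `LH` is a weak gradient -/
theorem LH_ibp (hn : 2 ≤ n) {U : Set (Sp n)} (hU : IsOpen U) {T : Sp n → ℝ} {H : Sp n → Sp n}
    (hT : Polar.LH (n : ℝ) volume U T H) {φ : Sp n → ℝ} (hφ : Polar.Cc U φ) (j : Fin n) :
    ∫ x, T x * fderiv ℝ φ x (EuclideanSpace.single j (1 : ℝ)) = - ∫ x, H x j * φ x := by
  have hp : (1 : ℝ) < (n : ℝ) := by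
    have : 1 < n := by omega
    exact_mod_cast this
  obtain ⟨η, hη, -, W, hW, hKW, hWU, hη1⟩ := Polar.exists_cutoff
    (show IsCompact (tsupport φ) from hφ.comp) hU hφ.supp
  have h0 := hT η hη
  obtain ⟨ψ, hψ, l1, l2, -, -⟩ := h0.seq hp.le
  -- limits
  have g1 : MemLp (fun x => (gradient φ x) j)
      (ENNReal.ofReal (n : ℝ) / ENNReal.ofReal ((n : ℝ) - 1)) volume :=
    LH_ibp_comp_memLp (hφ.memLp_grad _) j
  have t1 := LH_ibp_lim hp g1 h0.mu (fun k => (hψ k).memLp _) l1
  have g2 : MemLp φ (ENNReal.ofReal (n : ℝ) / ENNReal.ofReal ((n : ℝ) - 1)) volume :=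
    hφ.memLp _
  have l2' : Tendsto (fun k => eLpNorm (fun x => (η x • H x + T x • gradient η x) j
      - (gradient (ψ k) x) j) (ENNReal.ofReal (n : ℝ)) volume) atTop (𝓝 0) := by
    refine tendsto_of_tendsto_of_tendsto_of_le_of_le tendsto_const_nhds l2 (fun _ => zero_le)
      (fun k => ?_)
    exact LH_ibp_comp_norm (fun x => (η x • H x + T x • gradient η x) - gradient (ψ k) x) _ j
  have t2 := LH_ibp_lim hp g2 (LH_ibp_comp_memLp h0.mU j)
    (fun k => LH_ibp_comp_memLp ((hψ k).memLp_grad _) j) l2'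
  have t3 : Tendsto (fun k => ∫ x, (gradient φ x) j * ψ k x) atTop
      (𝓝 (- ∫ x, φ x * (η x • H x + T x • gradient η x) j)) := by
    have h1 : ∀ k, ∫ x, (gradient φ x) j * ψ k x = - ∫ x, φ x * (gradient (ψ k) x) j :=
      fun k => LH_ibp_smooth (hψ k) hφ j
    simp only [h1]
    exact t2.neg
  have hlim := tendsto_nhds_unique t1 t3
  have e1 : ∫ x, T x * fderiv ℝ φ x (EuclideanSpace.single j (1 : ℝ))
      = ∫ x, (gradient φ x) j * (η x * T x) := by
    congr 1
    ext x
    rw [LH_ibp_fderiv]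
    by_cases hx : x ∈ tsupport φ
    · rw [hη1 x (hKW hx)]
      ring
    · rw [Polar.grad_zero_of_notMem hx]
      simp
  have e2 : ∫ x, H x j * φ x = ∫ x, φ x * (η x • H x + T x • gradient η x) j := by
    congr 1
    ext x
    by_cases hx : x ∈ tsupport φ
    · rw [hη1 x (hKW hx), Polar.grad_zero_of_const_on hW hη1 (hKW hx), one_smul, smul_zero,
        add_zero]
      ring
    · rw [Polar.zero_of_notMem hx]
      ring
  rw [e1, e2]
  exact hlim

end Pool.Agent.Helper80.NHM
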