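import Pool.Agent.Helper80.NHM.B.Deps
import Pool.Agent.Helper80.NHM.B.Positivity
open MeasureTheory Filter Topology Set Metric
open scoped ENNReal NNReal RealInnerProductSpace

namespace Pool.Agent.Helper80.NHM

open Pool.Agent.Helper533

variable {n : ℕ}

/-- LIGHT, local: a connected set in the fibre of `y₀` through `x₀`, reaching distance `> 2 r`,
forces `f = y₀` on `closedBall x₀ r`. -/
theorem light_local (hn : 2 ≤ n) {α β α' β' : ℝ} {Astar A : Sp n → Sp n → Sp n}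
    (hAs : AOp n α β Astar) (hA : AOp n α' β' A) {G : Set (Sp n)} {f : Sp n → Sp n}
    (hG : IsOpen G) (hf : Morph Astar A G f) {K : Set (Sp n)} (hK : IsPreconnected K)
    (hKG : K ⊆ G) {y₀ : Sp n} (hy : ∀ x ∈ K, f x = y₀) {x₀ x₁ : Sp n} (hx₀ : x₀ ∈ K)
    (hx₁ : x₁ ∈ K) {r : ℝ} (hr : 0 < r) (hrG : closedBall x₀ (2 * r) ⊆ G)
    (hd : 2 * r < dist x₁ x₀) : ∀ w ∈ closedBall x₀ r, f w = y₀ := by
  -- a ball containing the image
  have hbd : Bornology.IsBounded (f '' closedBall x₀ (2 * r)) :=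
    ((isCompact_closedBall x₀ (2 * r)).image_of_continuousOn (hf.cont.mono hrG)).isBounded
  obtain ⟨S₀, hS₀⟩ := hbd.subset_ball y₀
  obtain ⟨S, hS, hSS⟩ : ∃ S : ℝ, 0 < S ∧ S₀ ≤ S := ⟨max S₀ 1, by positivity, le_max_left _ _⟩
  have hSb : ∀ x ∈ closedBall x₀ (2 * r), f x ∈ ball y₀ S := fun x hx =>
    ball_subset_ball hSS (hS₀ ⟨x, hx, rfl⟩)
  set Ω : Set (Sp n) := G ∩ f ⁻¹' (ball y₀ S) with hΩdef
  have hΩ : IsOpen Ω := hf.cont.isOpen_inter_preimage hG isOpen_ball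
  have hballΩ : closedBall x₀ (2 * r) ⊆ Ω := fun x hx => ⟨hrG hx, hSb x hx⟩
  obtain ⟨Cd, θ, Cs, lam, Cp, hadm⟩ := adm_volume (n := n) hn
  obtain ⟨κ, hκ, hpos⟩ := positivity (n := n) hn hAs.pos hAs.le hadm
  obtain ⟨k, Φ, t₀, ht₀, hk, hpot⟩ := potentials (n := n) hn hA y₀ hS
  intro w hw
  by_contra hne
  have hdist : 0 < dist (f w) y₀ := dist_pos.2 hne
  set d0 : ℝ := min (dist (f w) y₀) S with hd0
  have hd0pos : 0 < d0 := lt_min hdist hS
  have key : ∀ t : ℝ, 0 < t → t < min t₀ d0 → κ * k t ≤ Φ d0 := by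
    intro t ht htlt
    have ht1 : t < t₀ := lt_of_lt_of_le htlt (min_le_left _ _)
    have ht2 : t < d0 := lt_of_lt_of_le htlt (min_le_right _ _)
    have htS : t ≤ S := ht2.le.trans (min_le_right _ _)
    obtain ⟨ω, M, hωc, hM, hω0, hωM, hharm, hlow, hup⟩ :=
      hpot y₀ (mem_closedBall_self (by positivity)) t ht ht1
    have hy0M : ω y₀ = M := hωM y₀ (mem_closedBall_self ht.le)
    have hopen : IsOpen (ball y₀ S ∩ {z | ω z < M}) :=
      isOpen_ball.inter (isOpen_lt hωc continuous_const)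
    have hpull := hf.pull _ hopen ω hharm
    have hset : {x | x ∈ Ω ∧ (ω ∘ f) x < M} = G ∩ f ⁻¹' (ball y₀ S ∩ {z | ω z < M}) := by
      ext x
      simp only [hΩdef, Set.mem_setOf_eq, Set.mem_inter_iff, Set.mem_preimage, Function.comp_apply]
      tauto
    have hcontv : ContinuousOn (ω ∘ f) Ω :=
      hωc.comp_continuousOn (hf.cont.mono Set.inter_subset_left)
    obtain ⟨V, hV⟩ := paste_sup hn hAs hΩ (v := ω ∘ f) hcontv (M := M)
      (fun x _ => (hω0 (f x)).2) (by rw [hset]; exact hpull)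
    have h1 := hpos Astar hAs Ω hΩ (ω ∘ f) V hV hcontv (fun x _ => (hω0 (f x)).1) x₀ r hr hballΩ
      M hM (by
        intro z hz
        rw [mem_closedBall] at hz
        have hz' : dist x₀ z ≤ r / 8 := by rw [dist_comm]; exact hz
        have hcd : ContinuousOn (fun x => dist x z) K := by fun_prop
        have himg := hK.intermediate_value hx₀ hx₁ hcd
        have h2 : 3 * r / 2 ∈ Set.Icc (dist x₀ z) (dist x₁ z) := by
          constructor
          · linarith
          · have := dist_triangle x₁ z x₀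
            linarith
        obtain ⟨b, hbK, hb⟩ := himg h2
        refine ⟨b, ?_, ?_⟩
        · rw [mem_sphere]; exact hb
        · show M ≤ ω (f b)
          rw [hy b hbK, hy0M]) w hw
    have h2 : ω (f w) ≤ Φ d0 := hup d0 ht2.le (min_le_right _ _) (f w) (min_le_left _ _)
    have h3 : k t ≤ M := by
      have := hlow t le_rfl htS y₀ (by rw [dist_self]; exact ht.le)
      rwa [hy0M] at this
    calc κ * k t ≤ κ * M := by gcongr
      _ ≤ ω (f w) := h1
      _ ≤ Φ d0 := h2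
  have hev1 : ∀ᶠ t in 𝓝[>] (0 : ℝ), Φ d0 / κ < k t := hk.eventually_gt_atTop _
  have hev2 : ∀ᶠ t in 𝓝[>] (0 : ℝ), t ∈ Set.Ioo 0 (min t₀ d0) :=
    Ioo_mem_nhdsGT (lt_min ht₀ hd0pos)
  obtain ⟨t, ht, ht'⟩ := (hev1.and hev2).exists
  have := key t ht'.1 ht'.2
  rw [div_lt_iff₀ hκ] at ht
  linarith [mul_comm (k t) κ]

end Pool.Agent.Helper80.NHM
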