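import Pool.Agent.Helper80.NHM.Base
import Pool.Agent.Helper533.Deny.Final
import Pool.Agent.Helper795.LusinN
open MeasureTheory Filter Topology Set Metric
open scoped ENNReal NNReal RealInnerProductSpace

namespace Pool.Agent.Helper80.NHM

open Pool.Agent.Helper533

variable {n : ℕ}

/-- minimum principle for continuous weak supersolutions -/
theorem minP (hn : 2 ≤ n) {α β Cd θ Cs lam Cp : ℝ} {A : Sp n → Sp n → Sp n} (hA : AOp n α β A)
    (hadm : Polar.Adm (n : ℝ) (volume : Measure (Sp n)) Cd θ Cs lam Cp) {G : Set (Sp n)}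
    (hG : IsOpen G) {s : Sp n → ℝ} {S : Sp n → Sp n} (hs : Polar.Sup A (n : ℝ) volume G s S)
    (hc : ContinuousOn s G) {W : Set (Sp n)} (hW : IsOpen W) (hWc : IsCompact (closure W))
    (hWG : closure W ⊆ G) {m : ℝ} (hm : ∀ a ∈ frontier W, m ≤ s a) :
    ∀ w ∈ W, m ≤ s w := by
  intro w hw
  by_contra hlt
  push Not at hlt
  obtain ⟨m', h1, h2⟩ := exists_between hlt
  have hp : (1 : ℝ) < (n : ℝ) := by
    have : (2 : ℝ) ≤ (n : ℝ) := by exact_mod_cast hn
    linarith
  have hp0 : (0 : ℝ) < (n : ℝ) := by linarith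
  have hWsub : W ⊆ G := subset_closure.trans hWG
  have hs' : Polar.Sup A (n : ℝ) volume W s S := hs.mono_set hp hW hWsub
  -- the positive part
  obtain ⟨β', b1, b2, b3, b4, b5, b6, b7⟩ := Polar.exists_profile 0 le_rfl
  have hL1 : Polar.LH (n : ℝ) (volume : Measure (Sp n)) W (fun x => m' - s x)
      (fun x => (0 : Sp n) - S x) :=
    Polar.LH.sub hp (Polar.LH.const m') hs'.1
  have hL2 := Polar.LH.chain_lim hp hW (β := fun t => max (t - 0) 0)
    (b := fun t => if 0 < t then (1 : ℝ) else 0) (βk := β') b1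
    (C := 1) (fun j t => by rw [abs_of_nonneg (b4 j t).1]; exact (b4 j t).2) b5 b6 hL1
  obtain ⟨f, hf⟩ : ∃ f : Sp n → ℝ, f = W.indicator (fun x => max (m' - s x) 0) := ⟨_, rfl⟩
  obtain ⟨F, hF⟩ : ∃ F : Sp n → Sp n, F = W.indicator
      (fun x => (if 0 < m' - s x then (1 : ℝ) else 0) • ((0 : Sp n) - S x)) := ⟨_, rfl⟩
  have hL3 : Polar.LH (n : ℝ) (volume : Measure (Sp n)) W f F := by
    refine hL2.congr (Eventually.of_forall fun x hx => ?_) (Eventually.of_forall fun x hx => ?_)
    · rw [hf, indicator_of_mem hx, sub_zero]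
    · rw [hF, indicator_of_mem hx]
  -- the compact set
  obtain ⟨K, hK⟩ : ∃ K : Set (Sp n), K = closure W ∩ s ⁻¹' (Iic m') := ⟨_, rfl⟩
  have hKc : IsCompact K := by
    rw [hK]
    exact hWc.of_isClosed_subset
      ((hc.mono hWG).preimage_isClosed_of_isClosed isClosed_closure isClosed_Iic) inter_subset_left
  have hKW : K ⊆ W := by
    rw [hK]
    rintro x ⟨hx1, hx2⟩
    by_contra hxW
    have hx3 : x ∈ frontier W := by
      rw [hW.frontier_eq]
      exact ⟨hx1, hxW⟩
    have hx4 := hm x hx3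
    have hx5 : s x ≤ m' := hx2
    linarith
  have hf0 : ∀ x, 0 ≤ f x := by
    intro x
    rw [hf]
    exact indicator_nonneg (fun x _ => le_max_right _ _) x
  have hfK : ∀ x, x ∉ K → f x = 0 := by
    intro x hx
    rw [hf]
    by_cases hxW : x ∈ W
    · rw [indicator_of_mem hxW]
      apply max_eq_right
      by_contra hcon
      push Not at hcon
      apply hx
      rw [hK]
      refine ⟨subset_closure hxW, ?_⟩
      show s x ≤ m'
      linarith
    · rw [indicator_of_notMem hxW]
  have hFf : ∀ x, f x = 0 → F x = 0 := by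
    intro x hx
    rw [hF]
    rw [hf] at hx
    by_cases hxW : x ∈ W
    · rw [indicator_of_mem hxW] at hx ⊢
      have h3 : ¬ 0 < m' - s x := by
        intro h4
        rw [max_eq_left h4.le] at hx
        linarith
      rw [if_neg h3, zero_smul]
    · rw [indicator_of_notMem hxW]
  have hFK : ∀ x, x ∉ K → F x = 0 := fun x hx => hFf x (hfK x hx)
  have hH : Polar.H0 (n : ℝ) (volume : Measure (Sp n)) W f F :=
    Polar.LH.toH0 hL3 hW hKc hKW (Eventually.of_forall hfK) (Eventually.of_forall hFK)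
  have htest := Polar.Sup.test hp hA.op hs' hL3 hW hKc hKW (Eventually.of_forall hf0)
    (Eventually.of_forall hfK) (Eventually.of_forall hFf)
  have hint := Polar.integrable_flux hp hA.op hs'.1 hW hKc hKW hH.mU (Eventually.of_forall hFK)
  have hpt : ∀ᵐ x ∂(volume : Measure (Sp n)), α * ‖F x‖ ^ (n : ℝ) ≤ -⟪A x (S x), F x⟫ := by
    filter_upwards [hA.op.coer] with x hx
    have hx1 := hx (S x)
    rw [hF]
    by_cases hxW : x ∈ W
    · rw [indicator_of_mem hxW]
      by_cases h3 : 0 < m' - s x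
      · rw [if_pos h3, one_smul, zero_sub, norm_neg, inner_neg_right, neg_neg]
        exact hx1
      · rw [if_neg h3, zero_smul, norm_zero, Real.zero_rpow hp0.ne', inner_zero_right]
        simp
    · rw [indicator_of_notMem hxW, norm_zero, Real.zero_rpow hp0.ne', inner_zero_right]
      simp
  have hnn : 0 ≤ᵐ[(volume : Measure (Sp n))] fun x => -⟪A x (S x), F x⟫ := by
    filter_upwards [hpt] with x hx
    refine le_trans ?_ hx
    have := hA.pos
    positivity
  have hzero : ∫ x, -⟪A x (S x), F x⟫ = 0 := by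
    apply le_antisymm
    · rw [integral_neg]
      linarith
    · exact integral_nonneg_of_ae hnn
  have hae := (integral_eq_zero_iff_of_nonneg_ae hnn hint.neg).mp hzero
  have hF0 : F =ᵐ[(volume : Measure (Sp n))] 0 := by
    filter_upwards [hpt, hae] with x hx1 hx2
    have hx3 : -⟪A x (S x), F x⟫ = 0 := hx2
    rw [hx3] at hx1
    have hα := hA.pos
    have h4 : ‖F x‖ ^ (n : ℝ) ≤ 0 := by
      by_contra hcon
      push Not at hcon
      have := mul_pos hα hcon
      linarith
    have h5 : ‖F x‖ ^ (n : ℝ) = 0 := le_antisymm h4 (Real.rpow_nonneg (norm_nonneg _) _)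
    rw [Real.rpow_eq_zero (norm_nonneg _) hp0.ne'] at h5
    exact norm_eq_zero.mp h5
  obtain ⟨C, hC0, hC⟩ := Polar.friedrichs hp hadm (hWc.isBounded.subset subset_closure)
  have hfr := hC f F hH
  rw [eLpNorm_congr_ae hF0, eLpNorm_zero, mul_zero] at hfr
  have hf00 : f =ᵐ[(volume : Measure (Sp n))] 0 := by
    have hp00 : ENNReal.ofReal (n : ℝ) ≠ 0 := by
      rw [Ne, ENNReal.ofReal_eq_zero, not_le]
      exact hp0
    exact (eLpNorm_eq_zero_iff hH.mu.1 hp00).mp (le_antisymm hfr zero_le)
  have hfin := Polar.nonneg_of_ae hadm.pos hW (g := fun x => s x - m')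
    ((hc.mono hWsub).sub continuousOn_const) (by
      filter_upwards [hf00] with x hx hxW
      have hx1 : f x = 0 := hx
      rw [hf, indicator_of_mem hxW] at hx1
      have hx2 : m' - s x ≤ 0 := by
        rw [← hx1]
        exact le_max_left _ _
      linarith) w hw
  have hfin' : 0 ≤ s w - m' := hfin
  linarith

end Pool.Agent.Helper80.NHM
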