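import Pool.Agent.Helper80.NHM.Base
import Pool.Agent.Helper533.Deny.Final
import Pool.Agent.Helper795.LusinN
open MeasureTheory Filter Topology Set Metric
open scoped ENNReal NNReal RealInnerProductSpace

namespace Pool.Agent.Helper80.NHM

open Pool.Agent.Helper533

variable {n : ℕ}

/-- smooth obstacle avoiding a compact set -/
theorem exists_obstacle {F D : Set (Sp n)} (hF : IsCompact F) (hD : IsOpen D)
    (hDb : Bornology.IsBounded D) {ε : ℝ} (hε : 0 < ε) :
    ∃ ρ : Sp n → ℝ, Polar.Cc (D \ F) ρ ∧ (∀ x, 0 ≤ ρ x ∧ ρ x ≤ 1) ∧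
      volume.real {z | z ∈ D ∧ ρ z < 1} ≤ volume.real F + ε := by
  have hG : IsOpen (D \ F) := hD.sdiff hF.isClosed
  have hGfin : volume (D \ F) ≠ ∞ :=
    ((measure_mono sdiff_subset).trans_lt hDb.measure_lt_top).ne
  obtain ⟨K, hKG, hK, hKm⟩ := hG.measurableSet.exists_isCompact_sdiff_lt hGfin
    (ε := ENNReal.ofReal ε) (ENNReal.ofReal_pos.2 hε).ne'
  obtain ⟨ρ, hρ, h01, W, hW, hKW, hWG, hW1⟩ := Polar.exists_cutoff hK hG hKG
  refine ⟨ρ, hρ, h01, ?_⟩
  have hsub : {z | z ∈ D ∧ ρ z < 1} ⊆ F ∪ ((D \ F) \ K) := by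
    rintro z ⟨hz1, hz2⟩
    by_cases hzF : z ∈ F
    · exact Or.inl hzF
    · refine Or.inr ⟨⟨hz1, hzF⟩, fun hzK => ?_⟩
      have := hW1 z (hKW hzK)
      linarith
  have hFfin : volume F ≠ ∞ := hF.measure_lt_top.ne
  have hfin2 : volume ((D \ F) \ K) ≠ ∞ := (hKm.trans ENNReal.ofReal_lt_top).ne
  calc volume.real {z | z ∈ D ∧ ρ z < 1} ≤ volume.real (F ∪ ((D \ F) \ K)) := by
        exact measureReal_mono hsub (measure_union_lt_top hFfin.lt_top hfin2.lt_top).ne
    _ ≤ volume.real F + volume.real ((D \ F) \ K) := measureReal_union_le _ _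
    _ ≤ volume.real F + ε := by
        gcongr
        unfold Measure.real
        exact ENNReal.toReal_le_of_le_ofReal hε.le hKm.le

end Pool.Agent.Helper80.NHM
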