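import Pool.Agent.Helper80.NHM.B.Deps
import Pool.Agent.Helper80.NHM.B.Positivity
import Pool.Agent.Helper80.NHM.B.HarmApi
import Pool.Agent.Helper80.NHM.B.DG1
import Pool.Agent.Helper80.NHM.B.Obstacle
open MeasureTheory Filter Topology Set Metric
open scoped ENNReal NNReal RealInnerProductSpace

namespace Pool.Agent.Helper80.NHM

open Pool.Agent.Helper533

variable {n : ℕ}

/-- the maximum of the distance to `y` is attained on the boundary of a ball -/
theorem exists_far_10767 {G : Set (Sp n)} {f : Sp n → Sp n} (hf : ContinuousOn f G)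
    (hop : IsOpenMapOn G f) {z : Sp n} {R : ℝ} (hR : closedBall z R ⊆ G) {y : Sp n} {L : ℝ}
    (hL : 0 < L) {x1 : Sp n} (hx1 : x1 ∈ closedBall z R) (hx1L : L ≤ dist (f x1) y) :
    ∃ b ∈ sphere z R, L / 2 ≤ dist (f b) y := by
  by_contra hcon
  push Not at hcon
  have hc : ContinuousOn (fun q => dist (f q) y) (closedBall z R) :=
    (continuous_id.dist continuous_const : Continuous fun q : Sp n => dist q y).comp_continuousOn (hf.mono hR)
  obtain ⟨p, hp, hmax⟩ := (isCompact_closedBall z R).exists_isMaxOn ⟨x1, hx1⟩ hc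
  have hpL : L ≤ dist (f p) y := hx1L.trans (hmax hx1)
  have hpb : p ∈ ball z R := by
    rcases lt_or_eq_of_le (mem_closedBall.1 hp) with h | h
    · exact h
    · exact absurd (hcon p h) (not_lt.2 (by linarith))
  have hV : IsOpen (f '' ball z R) := hop _ (ball_subset_closedBall.trans hR) isOpen_ball
  have hc2 : Continuous (fun t : ℝ => f p + t • (f p - y)) := by fun_prop
  have hmem : (fun t : ℝ => f p + t • (f p - y)) ⁻¹' (f '' ball z R) ∈ 𝓝 (0 : ℝ) := by
    apply (hV.preimage hc2).mem_nhds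
    show f p + (0 : ℝ) • (f p - y) ∈ f '' ball z R
    rw [zero_smul, add_zero]
    exact ⟨p, hpb, rfl⟩
  obtain ⟨δ, hδ, hδb⟩ := Metric.mem_nhds_iff.1 hmem
  have h2 : (δ / 2 : ℝ) ∈ ball (0 : ℝ) δ := by
    rw [mem_ball, Real.dist_eq, sub_zero, abs_of_pos (by linarith)]
    linarith
  obtain ⟨q, hq, hqe⟩ := hδb h2
  have h3 : dist (f q) y ≤ dist (f p) y := hmax (ball_subset_closedBall hq)
  have h4 : f q - y = (1 + δ / 2) • (f p - y) := by
    rw [hqe, add_smul, one_smul]
    simp only
    abel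
  rw [dist_eq_norm, h4, norm_smul, Real.norm_eq_abs, abs_of_pos (by linarith), ← dist_eq_norm] at h3
  nlinarith

/-- UNIVERSAL VOLUME BOUND -/
theorem vol_bound (hn : 2 ≤ n) {α β α' β' : ℝ} (hα : 0 < α) (hαβ : α ≤ β) (hα' : 0 < α')
    (hαβ' : α' ≤ β') : ∃ C : ℝ, ∀ (Astar A : Sp n → Sp n → Sp n),
    AOp n α β Astar → AOp n α' β' A → ∀ (G : Set (Sp n)) (f : Sp n → Sp n), IsOpen G →
    Morph Astar A G f → IsOpenMapOn G f →
    ∀ (x : Sp n) (r : ℝ), 0 < r → closedBall x (3 * r) ⊆ G → ∀ z ∈ closedBall x r,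
      dist (f z) (f x) ^ n ≤ C * (volume (f '' closedBall x (2 * r))).toReal := by
  obtain ⟨Cd, θ, Cs, lam, Cp, hadm⟩ := adm_volume hn
  obtain ⟨κ, hκ, hpos⟩ := positivity hn hα hαβ hadm
  obtain ⟨γ, hγ, hdg⟩ := dg1_center hn hα' hαβ' hadm
  obtain ⟨j, hj⟩ : ∃ j : ℕ, (1 / 2 : ℝ) ^ j < κ := exists_pow_lt_of_lt_one hκ (by norm_num)
  have hB1 : 0 < volume.real (ball (0 : Sp n) 1) := by
    rw [Measure.real, ENNReal.toReal_pos_iff]
    exact ⟨measure_ball_pos _ _ one_pos, measure_ball_lt_top⟩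
  refine ⟨2 ^ n * 2 ^ (n * j) / (γ * volume.real (ball (0 : Sp n) 1)), ?_⟩
  intro Astar A hAs hA G f hG hf hop x r hr hxr z hz
  set y : Sp n := f x with hy
  have hG1 : closedBall x r ⊆ G := (closedBall_subset_closedBall (by linarith)).trans hxr
  have hG2 : closedBall x (2 * r) ⊆ G := (closedBall_subset_closedBall (by linarith)).trans hxr
  have hc : ContinuousOn (fun q => dist (f q) y) (closedBall x r) :=
    (continuous_id.dist continuous_const : Continuous fun q : Sp n => dist q y).comp_continuousOn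
      (hf.cont.mono hG1)
  obtain ⟨x1, hx1, hmax⟩ := (isCompact_closedBall x r).exists_isMaxOn ⟨z, hz⟩ hc
  set L : ℝ := dist (f x1) y with hLdef
  have hzL : dist (f z) y ≤ L := hmax hz
  have hL0 : 0 ≤ L := dist_nonneg
  set C : ℝ := 2 ^ n * 2 ^ (n * j) / (γ * volume.real (ball (0 : Sp n) 1)) with hC
  have hCpos : 0 < C := by positivity
  set F : Set (Sp n) := f '' closedBall x (2 * r) with hF
  have hstep : dist (f z) y ^ n ≤ L ^ n := pow_le_pow_left₀ dist_nonneg hzL n
  refine hstep.trans ?_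
  rcases hL0.eq_or_lt with h0 | hLpos
  · rw [← h0, zero_pow (by omega)]
    positivity
  by_contra hcon
  push Not at hcon
  have hFc : IsCompact F := (isCompact_closedBall x (2 * r)).image_of_continuousOn
    (hf.cont.mono hG2)
  set D : Set (Sp n) := ball y (L / 2) with hD
  have hvD : volume.real D = (L / 2) ^ n * volume.real (ball (0 : Sp n) 1) := by
    rw [hD, Measure.real, Measure.addHaar_ball_of_pos volume y (by linarith : 0 < L / 2),
      finrank_euclideanSpace_fin, ENNReal.toReal_mul, ENNReal.toReal_ofReal (by positivity)]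
    rfl
  have hlt : volume.real F < γ * (1 / 2 : ℝ) ^ (n * j) * volume.real D := by
    have h1 : volume.real F < L ^ n / C := by
      rw [lt_div_iff₀ hCpos, mul_comm]
      exact hcon
    refine h1.trans_le (le_of_eq ?_)
    rw [hvD, hC, div_pow, div_pow, one_pow]
    field_simp
  set ε : ℝ := γ * (1 / 2 : ℝ) ^ (n * j) * volume.real D - volume.real F with hε
  have hεpos : 0 < ε := by rw [hε]; linarith
  obtain ⟨ρ, hρ, hρ01, hρv⟩ := exists_obstacle hFc (isOpen_ball : IsOpen D) isBounded_ball hεpos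
  obtain ⟨ω, W, hωc, hω01, hω0, hρω, hωsup, hωh⟩ := exists_obs_ball hn hA y
    (by linarith : 0 < L / 2) (hρ.mono Set.sdiff_subset) hρ01
  set Ω : Set (Sp n) := ball x (2 * r) with hΩ
  have hΩG : Ω ⊆ G := ball_subset_closedBall.trans hG2
  set s : Sp n → ℝ := fun q => -(ω ∘ f) q + 1 with hs
  have hsc : ContinuousOn s Ω := by
    have : ContinuousOn (ω ∘ f) Ω := hωc.comp_continuousOn (hf.cont.mono hΩG)
    exact this.neg.add continuousOn_const
  have hs1 : ∀ q, s q ≤ 1 := by
    intro q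
    have := (hω01 (f q)).1
    show -(ω (f q)) + 1 ≤ 1
    linarith
  have hs0 : ∀ q, 0 ≤ s q := by
    intro q
    have := (hω01 (f q)).2
    show 0 ≤ -(ω (f q)) + 1
    linarith
  have hG'o : IsOpen (ball y (L / 2) \ tsupport ρ) := isOpen_ball.sdiff (isClosed_tsupport ρ)
  have hHs : Harm Astar {q | q ∈ Ω ∧ s q < 1} s := by
    have h1 := hf.pull _ hG'o ω hωh
    have h2 := Harm.add_const hn hAs (Harm.neg hn hAs h1) 1
    refine Harm.mono hn h2 ?_ ?_
    · have : {q | q ∈ Ω ∧ s q < 1} = Ω ∩ s ⁻¹' (Iio 1) := rfl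
      rw [this]
      exact hsc.isOpen_inter_preimage isOpen_ball isOpen_Iio
    · rintro q ⟨hq, hq1⟩
      have h3 : 0 < ω (f q) := by
        have : -(ω (f q)) + 1 < 1 := hq1
        linarith
      have h4 : f q ∈ ball y (L / 2) := by
        by_contra h5
        rw [hω0 _ h5] at h3
        exact lt_irrefl _ h3
      refine ⟨hΩG hq, h4, ?_⟩
      intro h5
      exact (hρ.supp h5).2 ⟨q, ball_subset_closedBall hq, rfl⟩
  obtain ⟨V, hV⟩ := paste_sup hn hAs (isOpen_ball : IsOpen Ω) hsc (M := 1) (fun q _ => hs1 q) hHs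
  have hκs : κ * 1 ≤ s x := by
    refine hpos Astar hAs Ω isOpen_ball s V hV hsc (fun q _ => hs0 q) x (9 * r / 10)
      (by linarith) ?_ 1 one_pos ?_ x (mem_closedBall_self (by linarith))
    · intro q hq
      rw [mem_closedBall] at hq
      rw [hΩ, mem_ball]
      linarith
    · intro q hq
      rw [mem_closedBall] at hq
      have hsub : closedBall q (3 * (9 * r / 10) / 2) ⊆ G := by
        refine Set.Subset.trans ?_ hxr
        intro w hw
        rw [mem_closedBall] at hw ⊢
        have := dist_triangle w q x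
        linarith
      have hx1q : x1 ∈ closedBall q (3 * (9 * r / 10) / 2) := by
        rw [mem_closedBall] at hx1 ⊢
        have := dist_triangle_right x1 q x
        linarith
      obtain ⟨b, hb, hbL⟩ := exists_far_10767 hf.cont hop hsub hLpos hx1q le_rfl
      refine ⟨b, hb, ?_⟩
      have : ω (f b) = 0 := by
        apply hω0
        rw [mem_ball, not_lt]
        exact hbL
      show 1 ≤ -(ω (f b)) + 1
      rw [this]
      norm_num
  have hfin : (1 - (1 / 2 : ℝ) ^ j) * 1 ≤ ω y := by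
    refine hdg A hA j y (L / 2) (by linarith) ω W hωsup hωc.continuousOn
      (fun q _ => (hω01 q).1) 1 one_pos ?_
    have h1 : volume.real {z | z ∈ ball y (L / 2) ∧ ω z < 1} ≤
        volume.real {z | z ∈ D ∧ ρ z < 1} := by
      refine measureReal_mono ?_ ?_
      · rintro q ⟨hq, hq1⟩
        exact ⟨hq, (hρω q).trans_lt hq1⟩
      · refine ne_of_lt (lt_of_le_of_lt (measure_mono (fun q hq => hq.1)) 
          (measure_ball_lt_top (x := y) (r := L / 2)))
    refine h1.trans (hρv.trans ?_)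
    rw [hε]
    linarith
  have hsx : s x = -(ω y) + 1 := rfl
  rw [hsx] at hκs
  linarith

end Pool.Agent.Helper80.NHM
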