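import Pool.Agent.Helper80.NHM.B.Global
import Pool.Agent.Helper80.NHM.B.Vol
open MeasureTheory Filter Topology Set Metric
open scoped ENNReal NNReal RealInnerProductSpace

namespace Pool.Agent.Helper80.NHM

open Pool.Agent.Helper533

variable {n : ℕ}

/-- PART B: a nonconstant morphism on a domain is open and light, and satisfies the universal
volume bound. -/
theorem partB (hn : 2 ≤ n) : PartB n := by
  intro α β α' β' Astar A hAs hA G f hG hGc hf hne
  have ho := open_global hn hAs hA hG hGc hf hne
  obtain ⟨C, hC⟩ := vol_bound hn hAs.pos hAs.le hA.pos hA.le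
  exact ⟨ho, light_global hn hAs hA hG hGc hf hne, C, hC Astar A hAs hA G f hG hf ho⟩

end Pool.Agent.Helper80.NHM
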